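import Pool.Agent.Y428.Ab.Core

/-!
# Abelian groups: the cycle
-/

set_option autoImplicit false
set_option linter.unusedSectionVars false

open Classical SimpleGraph

namespace Pool.Agent.Y428.Ab

variable {V Γ : Type} [Fintype V]

lemma pick [Group Γ] {Y : SimpleGraph V} (f : V → V → Γ) {u v : V} (K : Finset (Y.Walk u v))
    (hK : ∀ P ∈ K, ∀ Q ∈ K, P ≠ Q → Rl f P Q) (X : Finset V) (hu : u ∉ X) (hv : v ∉ X)
    (Gs : Finset Γ) (h : X.card + Gs.card < K.card) :
    ∃ P ∈ K, (∀ x ∈ P.support, x ∉ X) ∧ volt f P ∉ Gs := by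
  by_contra hno
  have hsub : K ⊆ (X.biUnion fun x => K.filter (fun P => x ∈ P.support)) ∪
      (Gs.biUnion fun g => K.filter (fun P => volt f P = g)) := by
    intro P hP
    rw [Finset.mem_union, Finset.mem_biUnion, Finset.mem_biUnion]
    by_contra hcon
    rw [not_or] at hcon
    refine hno ⟨P, hP, ?_, ?_⟩
    · intro x hx hxX
      exact hcon.1 ⟨x, hxX, Finset.mem_filter.mpr ⟨hP, hx⟩⟩
    · intro hg
      exact hcon.2 ⟨_, hg, Finset.mem_filter.mpr ⟨hP, rfl⟩⟩
  have h1 := (Finset.card_le_card hsub).trans (Finset.card_union_le _ _)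
  have h2 : (X.biUnion fun x => K.filter (fun P => x ∈ P.support)).card ≤ X.card := by
    refine Finset.card_biUnion_le.trans ?_
    calc _ ≤ ∑ x ∈ X, 1 := by
          refine Finset.sum_le_sum fun x hx => ?_
          rw [Finset.card_le_one]
          intro P hP Q hQ
          rw [Finset.mem_filter] at hP hQ
          by_contra hne
          rcases (hK P hP.1 Q hQ.1 hne).1.2.2 x hP.2 hQ.2 with h3 | h3
          · exact hu (h3 ▸ hx)
          · exact hv (h3 ▸ hx)
      _ = X.card := by simp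
  have h3 : (Gs.biUnion fun g => K.filter (fun P => volt f P = g)).card ≤ Gs.card := by
    refine Finset.card_biUnion_le.trans ?_
    calc _ ≤ ∑ x ∈ Gs, 1 := by
          refine Finset.sum_le_sum fun x hx => ?_
          rw [Finset.card_le_one]
          intro P hP Q hQ
          rw [Finset.mem_filter] at hP hQ
          by_contra hne
          exact (hK P hP.1 Q hQ.1 hne).2 (hP.2.trans hQ.2.symm)
      _ = Gs.card := by simp
  omega

lemma Hv_ne [Group Γ] (Y : SimpleGraph V) (f : V → V → Γ) (ℓ M : ℕ) (hℓ : 1 ≤ ℓ) (hM : 2 ≤ M)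
    (v u : V) (hu : u ∈ Hv Y f ℓ M v) : u ≠ v := by
  obtain ⟨K, h1, h2, h3⟩ := Hv_clique Y f ℓ M v u hu
  obtain ⟨P, hP, Q, hQ, hne⟩ := Finset.one_lt_card.mp (by omega : 1 < K.card)
  have h4 := (h3 P hP Q hQ hne).1.1
  rintro rfl
  have := (SimpleGraph.Walk.isPath_iff_nil.mp h4).length_eq_zero
  rw [h2 P hP] at this
  omega

lemma from_R [CommGroup Γ] (Y : SimpleGraph V) (f : V → V → Γ) (hf : ∀ u v, f v u = (f u v)⁻¹)
    (ℓ M j : ℕ) (hℓ : 1 ≤ ℓ) (hj : j ≤ 2) (hM : 2 * ℓ + 12 ≤ M) {u u' v : V}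
    (hu : u ∈ Hv Y f ℓ M v) (hu' : u' ∈ Hv Y f ℓ M v) (R : Y.Walk u u') (hR : R.IsPath)
    (hRl : R.length = 2 * j) (hvR : v ∉ R.support) :
    cycleGraph (2 * (3 * ℓ + 2 * j)) ⊑ der Y f hf := by
  obtain ⟨K, k1, k2, k3⟩ := Hv_clique Y f ℓ M v u hu
  obtain ⟨K', k1', k2', k3'⟩ := Hv_clique Y f ℓ M v u' hu'
  have hRs : R.support.length = 2 * j + 1 := by rw [SimpleGraph.Walk.length_support, hRl]
  set X1 := R.support.toFinset.erase u with hX1
  have hX1c : X1.card ≤ 5 := by
    have h1 : X1.card ≤ R.support.toFinset.card := Finset.card_le_card (Finset.erase_subset _ _)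
    have h2 := List.toFinset_card_le R.support
    omega
  have huX1 : u ∉ X1 := Finset.notMem_erase _ _
  have hvX1 : v ∉ X1 := fun h => hvR (List.mem_toFinset.mp (Finset.mem_of_mem_erase h))
  obtain ⟨P1, hP1, a1, -⟩ := pick f K k3 X1 huX1 hvX1 ∅ (by rw [Finset.card_empty]; omega)
  obtain ⟨P2, hP2, a2, b2⟩ := pick f K k3 X1 huX1 hvX1 {volt f P1}
    (by rw [Finset.card_singleton]; omega)
  rw [Finset.mem_singleton] at b2
  have hne : P1 ≠ P2 := fun h => b2 (by rw [h])
  have h12 := k3 P1 hP1 P2 hP2 hne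
  set X2 := ((R.support ++ (P1.support ++ P2.support)).toFinset.erase u').erase v with hX2
  have hX2c : X2.card ≤ 5 + 2 * (ℓ + 1) := by
    have h1 : X2.card ≤ (R.support ++ (P1.support ++ P2.support)).toFinset.card :=
      Finset.card_le_card ((Finset.erase_subset _ _).trans (Finset.erase_subset _ _))
    have h2 := List.toFinset_card_le (R.support ++ (P1.support ++ P2.support))
    have h3 : (R.support ++ (P1.support ++ P2.support)).length = 2 * j + 1 + (ℓ + 1 + (ℓ + 1)) := by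
      rw [List.length_append, List.length_append, hRs, SimpleGraph.Walk.length_support,
        SimpleGraph.Walk.length_support, k2 P1 hP1, k2 P2 hP2]
    omega
  have hvX2 : v ∉ X2 := Finset.notMem_erase _ _
  have huX2 : u' ∉ X2 := fun h => (Finset.notMem_erase u' _) (Finset.mem_of_mem_erase h)
  obtain ⟨Q, hQ, a3, b3⟩ := pick f K' k3' X2 huX2 hvX2
    {(volt f R)⁻¹ * volt f P1, (volt f R)⁻¹ * volt f P2} (by
      have := Finset.card_le_two (a := (volt f R)⁻¹ * volt f P1) (b := (volt f R)⁻¹ * volt f P2)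
      omega)
  rw [Finset.mem_insert, Finset.mem_singleton, not_or] at b3
  obtain ⟨Q', hQ', hQQ⟩ : ∃ Q' ∈ K', Q' ≠ Q := by
    by_contra hcon
    push Not at hcon
    have : K' ⊆ {Q} := fun x hx => Finset.mem_singleton.mpr (hcon x hx)
    have := Finset.card_le_card this
    rw [Finset.card_singleton] at this
    omega
  have hQp : Q.IsPath := (k3' Q hQ Q' hQ' hQQ.symm).1.1
  have memX2 : ∀ x, x ∈ R.support ∨ x ∈ P1.support ∨ x ∈ P2.support → x ≠ u' → x ≠ v →
      x ∈ X2 := by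
    intro x hx h1 h2
    rw [hX2, Finset.mem_erase, Finset.mem_erase, List.mem_toFinset, List.mem_append,
      List.mem_append]
    exact ⟨h2, h1, hx⟩
  have hP3 : (R.append Q).IsPath := by
    rw [SimpleGraph.Walk.isPath_def, SimpleGraph.Walk.support_append, List.nodup_append]
    refine ⟨hR.support_nodup, tail_nodup hQp, ?_⟩
    intro x hx y hy hxy
    subst hxy
    obtain ⟨h1, h2⟩ := tail_ne hQp hy
    exact a3 x h1 (memX2 x (Or.inl hx) h2 (fun h => hvR (h ▸ hx)))
  have key : ∀ P : Y.Walk u v, (∀ x ∈ P.support, x ∉ X1) → (P = P1 ∨ P = P2) →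
      ∀ x, x ∈ P.support → x ∈ (R.append Q).support → x = u ∨ x = v := by
    intro P hPa hPP x hx1 hx2
    have hRc : ∀ y, y ∈ P.support → y ∈ R.support → y = u := by
      intro y hy1 hy2
      by_contra hyu
      exact hPa y hy1 (Finset.mem_erase.mpr ⟨hyu, List.mem_toFinset.mpr hy2⟩)
    rw [SimpleGraph.Walk.mem_support_append_iff] at hx2
    rcases hx2 with h | h
    · exact Or.inl (hRc x hx1 h)
    · by_cases hxv : x = v
      · exact Or.inr hxv
      · by_cases hxu : x = u'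
        · left
          refine hRc x hx1 ?_
          rw [hxu]
          exact R.end_mem_support
        · exfalso
          refine a3 x h (memX2 x ?_ hxu hxv)
          rcases hPP with h1 | h1
          · rw [h1] at hx1
            exact Or.inr (Or.inl hx1)
          · rw [h1] at hx1
            exact Or.inr (Or.inr hx1)
  have hv3 : volt f (R.append Q) = volt f R * volt f Q := volt_append f R Q
  refine theta_cycle Y f hf P1 P2 (R.append Q) h12.1.1 h12.1.2.1 hP3 h12.1.2.2
    (key P1 a1 (Or.inl rfl)) (key P2 a2 (Or.inr rfl)) h12.2 ?_ ?_ _ (by omega) ?_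
  · intro h
    apply b3.1
    rw [h, hv3, inv_mul_cancel_left]
  · intro h
    apply b3.2
    rw [h, hv3, inv_mul_cancel_left]
  · rw [SimpleGraph.Walk.length_append, k2 P1 hP1, k2 P2 hP2, hRl, k2' Q hQ]
    ring

/-- the cycle in the derived graph -/
theorem core_ab (K ℓ j : ℕ) (hK : 1 ≤ K) (hℓ : 1 ≤ ℓ) (hj : j ≤ 2) :
    ∃ B : ℕ, 0 < B ∧ ∀ (V Γ : Type) [Fintype V] [Nonempty V] [CommGroup Γ] [Fintype Γ]
      (Y : SimpleGraph V) (c : V → Bool) (_ : ∀ u v, Y.Adj u v → c u ≠ c v) (D : ℕ) (_ : 1 ≤ D)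
      (_ : ∀ x, D ≤ (Finset.univ.filter (fun w => Y.Adj x w)).card)
      (_ : ∀ x, (Finset.univ.filter (fun w => Y.Adj x w)).card ≤ K * D)
      (_ : B ^ ℓ * Fintype.card V ≤ D ^ ℓ)
      (f : V → V → Γ) (hf : ∀ u v, f v u = (f u v)⁻¹),
      cycleGraph (2 * (3 * ℓ + 2 * j)) ⊑ der Y f hf := by
  obtain ⟨B, hB, h⟩ := core_chain K ℓ (3 * ℓ + 2 * j) (2 * ℓ + 12) hK hℓ (by omega) (by omega)
  refine ⟨B, hB, ?_⟩
  intro V Γ _ _ _ _ Y c hc D hD hdl hdu hBt f hf
  by_contra hfree
  obtain ⟨v, u0, z1, u1, z2, u2, m0, m1, m2, e1, e2, e3, e4, n1, n2, n3, n4, n5, n6⟩ :=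
    h V Γ Y c hc D hD hdl hdu hBt f hf hfree
  have v0 := Hv_ne Y f ℓ _ hℓ (by omega) v u0 m0
  have v1 := Hv_ne Y f ℓ _ hℓ (by omega) v u1 m1
  have v2 := Hv_ne Y f ℓ _ hℓ (by omega) v u2 m2
  have c1 := hc _ _ e1
  have c2 := hc _ _ e2
  have c3 := hc _ _ e3
  have c4 := hc _ _ e4
  have w1 : u0 ≠ z2 := by
    rintro rfl
    revert c1 c2 c3
    cases c u0 <;> cases c z1 <;> cases c u1 <;> simp
  have w2 : z1 ≠ u2 := by
    rintro rfl
    revert c2 c3 c4
    cases c z1 <;> cases c u1 <;> cases c z2 <;> simp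
  apply hfree
  interval_cases j
  · refine from_R Y f hf ℓ _ 0 hℓ (by omega) le_rfl m0 m0 SimpleGraph.Walk.nil
      SimpleGraph.Walk.IsPath.nil rfl ?_
    rw [SimpleGraph.Walk.support_nil, List.mem_singleton]
    exact v0.symm
  · refine from_R Y f hf ℓ _ 1 hℓ (by omega) le_rfl m0 m1
      (SimpleGraph.Walk.cons e1 (SimpleGraph.Walk.cons e2 SimpleGraph.Walk.nil)) ?_ rfl ?_
    · rw [SimpleGraph.Walk.isPath_def]
      simp only [SimpleGraph.Walk.support_cons, SimpleGraph.Walk.support_nil, List.nodup_cons,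
        List.mem_cons, List.not_mem_nil, or_false, not_or, List.nodup_nil, and_true,
        not_false_eq_true]
      exact ⟨⟨e1.ne, n2⟩, e2.ne⟩
    · simp only [SimpleGraph.Walk.support_cons, SimpleGraph.Walk.support_nil,
        List.mem_cons, List.not_mem_nil, or_false, not_or]
      exact ⟨v0.symm, n5.symm, v1.symm⟩
  · refine from_R Y f hf ℓ _ 2 hℓ (by omega) le_rfl m0 m2
      (SimpleGraph.Walk.cons e1 (SimpleGraph.Walk.cons e2 (SimpleGraph.Walk.cons e3
        (SimpleGraph.Walk.cons e4 SimpleGraph.Walk.nil)))) ?_ rfl ?_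
    · rw [SimpleGraph.Walk.isPath_def]
      simp only [SimpleGraph.Walk.support_cons, SimpleGraph.Walk.support_nil, List.nodup_cons,
        List.mem_cons, List.not_mem_nil, or_false, not_or, List.nodup_nil, and_true,
        not_false_eq_true]
      exact ⟨⟨e1.ne, n2, w1, n3⟩, ⟨e2.ne, n1, w2⟩, ⟨e3.ne, n4⟩, e4.ne⟩
    · simp only [SimpleGraph.Walk.support_cons, SimpleGraph.Walk.support_nil,
        List.mem_cons, List.not_mem_nil, or_false, not_or]
      exact ⟨v0.symm, n5.symm, v1.symm, n6.symm, v2.symm⟩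

end Pool.Agent.Y428.Ab
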