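import Pool.Agent.Y428.Ab.Wk

/-!
# Degenerate pairs of walks
-/

set_option autoImplicit false
set_option linter.unusedSectionVars false

open Classical

namespace Pool.Agent.Y428.Ab

section seq

variable {s : ℕ → ℕ}

/-- ratios of a log-convex sequence increase -/
lemma lc_mul (hlc : ∀ i, s (i + 1) ^ 2 ≤ s i * s (i + 2)) (hpos : ∀ i, 0 < s i) (i j : ℕ)
    (h : i ≤ j) : s (i + 1) * s j ≤ s i * s (j + 1) := by
  induction j, h using Nat.le_induction with
  | base => rw [mul_comm]
  | succ j _ ih =>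
    have h1 := hlc j
    have h2 := hpos j
    have h3 : s j * (s (i + 1) * s (j + 1)) ≤ s j * (s i * s (j + 1 + 1)) := by
      calc s j * (s (i + 1) * s (j + 1)) = (s (i + 1) * s j) * s (j + 1) := by ring
        _ ≤ (s i * s (j + 1)) * s (j + 1) := Nat.mul_le_mul_right _ ih
        _ = s i * s (j + 1) ^ 2 := by ring
        _ ≤ s i * (s j * s (j + 2)) := Nat.mul_le_mul_left _ h1
        _ = s j * (s i * s (j + 1 + 1)) := by ring
    exact Nat.le_of_mul_le_mul_left h3 h2

lemma lc_first_aux (hlc : ∀ i, s (i + 1) ^ 2 ≤ s i * s (i + 2)) (hpos : ∀ i, 0 < s i) :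
    ∀ i j : ℕ, i ≤ j → s (i + 1) * s (j + 1) ≤ s 1 * s (i + j + 1) := by
  intro i
  induction i with
  | zero => intro j _; rw [Nat.zero_add, Nat.zero_add]
  | succ i ih =>
    intro j hj
    calc s (i + 1 + 1) * s (j + 1) ≤ s (i + 1) * s (j + 1 + 1) :=
          lc_mul hlc hpos (i + 1) (j + 1) (by omega)
      _ ≤ s 1 * s (i + (j + 1) + 1) := ih (j + 1) (by omega)
      _ = s 1 * s (i + 1 + j + 1) := by rw [show i + (j + 1) + 1 = i + 1 + j + 1 by omega]

lemma lc_first (hlc : ∀ i, s (i + 1) ^ 2 ≤ s i * s (i + 2)) (hpos : ∀ i, 0 < s i)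
    (i j : ℕ) (hi : 1 ≤ i) (hj : 1 ≤ j) : s i * s j ≤ s 1 * s (i + j - 1) := by
  obtain ⟨i, rfl⟩ : ∃ i', i = i' + 1 := ⟨i - 1, by omega⟩
  obtain ⟨j, rfl⟩ : ∃ j', j = j' + 1 := ⟨j - 1, by omega⟩
  rcases le_total i j with h | h
  · have := lc_first_aux hlc hpos i j h
    rwa [show i + 1 + (j + 1) - 1 = i + j + 1 by omega]
  · have := lc_first_aux hlc hpos j i h
    rw [show i + 1 + (j + 1) - 1 = j + i + 1 by omega, mul_comm]
    exact this

/-- a bound for one ratio gives bounds for the earlier ones -/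
lemma lc_down (hlc : ∀ i, s (i + 1) ^ 2 ≤ s i * s (i + 2)) (hpos : ∀ i, 0 < s i) (k ρ : ℕ)
    (h : s (k + 1) ≤ ρ * s k) : ∀ i, i ≤ k + 1 → s i ≤ ρ ^ i * s 0 := by
  intro i
  induction i with
  | zero => intro _; simp
  | succ i ih =>
    intro hi
    have h1 := lc_mul hlc hpos i k (by omega)
    have h2 : s k * s (i + 1) ≤ s k * (ρ * s i) := by
      calc s k * s (i + 1) = s (i + 1) * s k := by ring
        _ ≤ s i * s (k + 1) := h1
        _ ≤ s i * (ρ * s k) := Nat.mul_le_mul_left _ h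
        _ = s k * (ρ * s i) := by ring
    have h3 := Nat.le_of_mul_le_mul_left h2 (hpos k)
    calc s (i + 1) ≤ ρ * s i := h3
      _ ≤ ρ * (ρ ^ i * s 0) := Nat.mul_le_mul_left _ (ih (by omega))
      _ = ρ ^ (i + 1) * s 0 := by ring

/-- a large term has a large ratio -/
lemma lc_up (hlc : ∀ i, s (i + 1) ^ 2 ≤ s i * s (i + 2)) (hpos : ∀ i, 0 < s i) (k c : ℕ)
    (h : c ^ (k + 1) * s 0 ≤ s (k + 1)) : c * s k ≤ s (k + 1) := by
  by_contra hcon
  push Not at hcon
  have key : ∀ i, i ≤ k → s (i + 1) < c * s i := by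
    intro i hi
    have h1 := lc_mul hlc hpos i k hi
    have h2 : s k * s (i + 1) < s k * (c * s i) := by
      calc s k * s (i + 1) = s (i + 1) * s k := by ring
        _ ≤ s i * s (k + 1) := h1
        _ < s i * (c * s k) := Nat.mul_lt_mul_of_pos_left hcon (hpos i)
        _ = s k * (c * s i) := by ring
    exact Nat.lt_of_mul_lt_mul_left h2
  have : ∀ i, i ≤ k → s (i + 1) < c ^ (i + 1) * s 0 := by
    intro i
    induction i with
    | zero => intro _; simpa using key 0 (by omega)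
    | succ i ih =>
      intro hi
      have h1 := key (i + 1) hi
      have h2 := ih (by omega)
      have hc : 0 < c := by
        rcases Nat.eq_zero_or_pos c with h0 | h0
        · rw [h0] at h1
          simp at h1
        · exact h0
      calc s (i + 1 + 1) < c * s (i + 1) := h1
        _ ≤ c * (c ^ (i + 1) * s 0) := Nat.mul_le_mul_left _ h2.le
        _ = c ^ (i + 1 + 1) * s 0 := by ring
  exact absurd h (not_le.mpr (this k le_rfl))

end seq

variable {V : Type} [Fintype V]

/-- two internally disjoint paths -/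
def Good {G : SimpleGraph V} {u v : V} (P Q : G.Walk u v) : Prop :=
  P.IsPath ∧ Q.IsPath ∧ ∀ x, x ∈ P.support → x ∈ Q.support → x = u ∨ x = v

lemma Good.symm {G : SimpleGraph V} {u v : V} {P Q : G.Walk u v} (h : Good P Q) : Good Q P :=
  ⟨h.2.1, h.1, fun x h1 h2 => h.2.2 x h2 h1⟩

lemma not_path {G : SimpleGraph V} {u v : V} (P : G.Walk u v) : ¬ P.IsPath →
    ∃ (x : V) (P1 : G.Walk u x) (P2 : G.Walk x x) (P3 : G.Walk x v),
      P = (P1.append P2).append P3 ∧ 1 ≤ P2.length := by
  induction P with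
  | nil => intro h; exact absurd SimpleGraph.Walk.IsPath.nil h
  | cons h p ih =>
    rename_i u w v
    intro hnp
    by_cases hp : p.IsPath
    · rw [SimpleGraph.Walk.cons_isPath_iff] at hnp
      have hu : u ∈ p.support := by
        by_contra hu
        exact hnp ⟨hp, hu⟩
      refine ⟨u, SimpleGraph.Walk.nil, SimpleGraph.Walk.cons h (p.takeUntil u hu),
        p.dropUntil u hu, ?_, ?_⟩
      · rw [SimpleGraph.Walk.nil_append, SimpleGraph.Walk.cons_append,
          SimpleGraph.Walk.take_spec]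
      · rw [SimpleGraph.Walk.length_cons]; omega
    · obtain ⟨x, P1, P2, P3, h1, h2⟩ := ih hp
      refine ⟨x, SimpleGraph.Walk.cons h P1, P2, P3, ?_, h2⟩
      rw [h1]
      rfl

lemma split_at {G : SimpleGraph V} {u v x : V} (P : G.Walk u v) (hx : x ∈ P.support)
    (hu : x ≠ u) (hv : x ≠ v) : ∃ (P1 : G.Walk u x) (P2 : G.Walk x v),
      P = P1.append P2 ∧ 1 ≤ P1.length ∧ 1 ≤ P2.length := by
  refine ⟨P.takeUntil x hx, P.dropUntil x hx, (SimpleGraph.Walk.take_spec P hx).symm, ?_, ?_⟩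
  · by_contra h
    have h0 : (P.takeUntil x hx).length = 0 := by omega
    exact hu (SimpleGraph.Walk.eq_of_length_eq_zero h0).symm
  · by_contra h
    have h0 : (P.dropUntil x hx).length = 0 := by omega
    exact hv (SimpleGraph.Walk.eq_of_length_eq_zero h0)

/-- closed parts -/
def TA {G : SimpleGraph V} {u v : V} (s m r : ℕ) (P : G.Walk u v) : Prop :=
  ∃ (x : V) (P1 : G.Walk u x) (P2 : G.Walk x x) (P3 : G.Walk x v),
    P = (P1.append P2).append P3 ∧ P1.length = s ∧ P2.length = m ∧ P3.length = r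

/-- common inner vertices -/
def TC {G : SimpleGraph V} {u v : V} (s s' t t' : ℕ) (P Q : G.Walk u v) : Prop :=
  ∃ (x : V) (P1 : G.Walk u x) (P2 : G.Walk x v) (Q1 : G.Walk u x) (Q2 : G.Walk x v),
    P = P1.append P2 ∧ Q = Q1.append Q2 ∧ P1.length = s ∧ P2.length = s' ∧
      Q1.length = t ∧ Q2.length = t'

lemma card_TA (G : SimpleGraph V) (i s m r : ℕ) (u v : V) :
    ((F G i u v).filter (fun P => TA s m r P)).card ≤
      ∑ x, W G s u x * W G m x x * W G r x v := by
  have h : (F G i u v).filter (fun P => TA s m r P) ⊆ Finset.univ.biUnion (fun x =>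
      (F G s u x ×ˢ F G m x x ×ˢ F G r x v).image (fun t => (t.1.append t.2.1).append t.2.2)) := by
    intro P hP
    rw [Finset.mem_filter] at hP
    obtain ⟨x, P1, P2, P3, h1, h2, h3, h4⟩ := hP.2
    rw [Finset.mem_biUnion]
    refine ⟨x, Finset.mem_univ _, ?_⟩
    rw [Finset.mem_image]
    refine ⟨(P1, P2, P3), ?_, h1.symm⟩
    simp only [Finset.mem_product, mem_F]
    exact ⟨h2, h3, h4⟩
  refine (Finset.card_le_card h).trans (Finset.card_biUnion_le.trans ?_)
  refine Finset.sum_le_sum fun x _ => Finset.card_image_le.trans ?_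
  rw [Finset.card_product, Finset.card_product]
  unfold W
  rw [mul_assoc]

lemma card_TC (G : SimpleGraph V) (i s s' t t' : ℕ) (u v : V) :
    ((F G i u v ×ˢ F G i u v).filter (fun p => TC s s' t t' p.1 p.2)).card ≤
      ∑ x, W G s u x * W G s' x v * (W G t u x * W G t' x v) := by
  have h : (F G i u v ×ˢ F G i u v).filter (fun p => TC s s' t t' p.1 p.2) ⊆
      Finset.univ.biUnion (fun x =>
      ((F G s u x ×ˢ F G s' x v) ×ˢ (F G t u x ×ˢ F G t' x v)).image
        (fun q => (q.1.1.append q.1.2, q.2.1.append q.2.2))) := by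
    intro p hp
    rw [Finset.mem_filter] at hp
    obtain ⟨x, P1, P2, Q1, Q2, h1, h2, h3, h4, h5, h6⟩ := hp.2
    rw [Finset.mem_biUnion]
    refine ⟨x, Finset.mem_univ _, ?_⟩
    rw [Finset.mem_image]
    refine ⟨((P1, P2), (Q1, Q2)), ?_, Prod.ext h1.symm h2.symm⟩
    simp only [Finset.mem_product, mem_F]
    exact ⟨⟨h3, h4⟩, h5, h6⟩
  refine (Finset.card_le_card h).trans (Finset.card_biUnion_le.trans ?_)
  refine Finset.sum_le_sum fun x _ => Finset.card_image_le.trans ?_
  rw [Finset.card_product, Finset.card_product, Finset.card_product]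
  unfold W
  exact le_rfl

end Pool.Agent.Y428.Ab
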