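import Pool.Agent.Y428.Ab.Coin

/-!
# Few degenerate pairs
-/

set_option autoImplicit false
set_option linter.unusedSectionVars false

open Classical

namespace Pool.Agent.Y428.Ab

variable {V : Type} [Fintype V]

lemma sum_TA (G : SimpleGraph V) (i s m r : ℕ) :
    ∑ u, ∑ v, (∑ x, W G s u x * W G m x x * W G r x v) * W G i u v =
      ∑ x, W G m x x * W G (s + (i + r)) x x := by
  have h1 : ∀ u v, (∑ x, W G s u x * W G m x x * W G r x v) * W G i u v =
      ∑ x, W G m x x * (W G s x u * (W G i u v * W G r v x)) := by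
    intro u v
    rw [Finset.sum_mul]
    refine Finset.sum_congr rfl fun x _ => ?_
    rw [W_symm G s u x, W_symm G r x v]
    ring
  simp only [h1]
  have h2 : ∀ u, ∑ v, ∑ x, W G m x x * (W G s x u * (W G i u v * W G r v x)) =
      ∑ x, W G m x x * (W G s x u * W G (i + r) u x) := by
    intro u
    rw [Finset.sum_comm]
    refine Finset.sum_congr rfl fun x _ => ?_
    rw [W_add, ← Finset.mul_sum, ← Finset.mul_sum]
  simp only [h2]
  rw [Finset.sum_comm]
  refine Finset.sum_congr rfl fun x _ => ?_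
  rw [W_add, Finset.mul_sum]

lemma sum_TC (G : SimpleGraph V) (s s' t t' : ℕ) :
    ∑ u, ∑ v, ∑ x, W G s u x * W G s' x v * (W G t u x * W G t' x v) =
      ∑ x, W G (s + t) x x * W G (s' + t') x x := by
  have h1 : ∀ u, ∑ v, ∑ x, W G s u x * W G s' x v * (W G t u x * W G t' x v) =
      ∑ x, (W G s u x * W G t u x) * W G (s' + t') x x := by
    intro u
    rw [Finset.sum_comm]
    refine Finset.sum_congr rfl fun x _ => ?_
    rw [W_add, Finset.mul_sum]
    refine Finset.sum_congr rfl fun v _ => ?_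
    rw [W_symm G t' v x]
    ring
  simp only [h1]
  rw [Finset.sum_comm]
  refine Finset.sum_congr rfl fun x _ => ?_
  rw [← Finset.sum_mul, W_add G s t]
  congr 1
  refine Finset.sum_congr rfl fun u _ => ?_
  rw [W_symm G s u x]

lemma walk_parity {G : SimpleGraph V} (c : V → Bool) (hc : ∀ u v, G.Adj u v → c u ≠ c v)
    {u v : V} (p : G.Walk u v) : (p.length % 2 = 0 ↔ c u = c v) := by
  induction p with
  | nil => simp
  | cons h p ih =>
    rename_i u w v
    rw [SimpleGraph.Walk.length_cons]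
    have h1 := hc u w h
    rcases Nat.mod_two_eq_zero_or_one p.length with h2 | h2
    · have h3 := ih.mp h2
      rw [← h3]
      constructor
      · intro h4; omega
      · intro h4; exact absurd h4 h1
    · have h3 : c w ≠ c v := fun h => by
        have := ih.mpr h
        omega
      have h4 : c u = c v := by
        revert h1 h3
        cases c u <;> cases c w <;> cases c v <;> simp
      simp only [h4, iff_true]
      omega

lemma W_odd {G : SimpleGraph V} (c : V → Bool) (hc : ∀ u v, G.Adj u v → c u ≠ c v)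
    (m : ℕ) (hm : m % 2 = 1) (x : V) : W G m x x = 0 := by
  unfold W
  rw [Finset.card_eq_zero, Finset.eq_empty_iff_forall_notMem]
  intro p hp
  rw [mem_F] at hp
  have := (walk_parity c hc p).mpr rfl
  omega

lemma b_one (G : SimpleGraph V) (x : V) :
    b G 1 x = (Finset.univ.filter (fun w => G.Adj x w)).card := by
  unfold b
  rw [show 2 * 1 = 2 from rfl, W_two]

lemma b_pos (G : SimpleGraph V) (hd : ∀ x, 1 ≤ (Finset.univ.filter (fun w => G.Adj x w)).card)
    (x : V) : ∀ i, 0 < b G i x := by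
  intro i
  induction i with
  | zero => rw [b_zero]; norm_num
  | succ i ih =>
    have h1 : b G (i + 1) x = ∑ y, W G 2 x y * W G (2 * i) y x := by
      unfold b
      rw [show 2 * (i + 1) = 2 + 2 * i by ring, W_add]
    have h2 : W G 2 x x * W G (2 * i) x x ≤ b G (i + 1) x := by
      rw [h1]
      exact Finset.single_le_sum (f := fun y => W G 2 x y * W G (2 * i) y x)
        (fun _ _ => Nat.zero_le _) (Finset.mem_univ x)
    have h3 : 1 ≤ W G 2 x x := by rw [W_two]; exact hd x
    have h4 : 0 < W G (2 * i) x x := ih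
    exact lt_of_lt_of_le (Nat.mul_pos h3 h4) h2

lemma a_pos (G : SimpleGraph V) [Nonempty V]
    (hd : ∀ x, 1 ≤ (Finset.univ.filter (fun w => G.Adj x w)).card) (i : ℕ) : 0 < a G i :=
  Finset.sum_pos (fun x _ => b_pos G hd x i) Finset.univ_nonempty

lemma term_le {G : SimpleGraph V} (c : V → Bool) (hc : ∀ u v, G.Adj u v → c u ≠ c v)
    (hd : ∀ x, 1 ≤ (Finset.univ.filter (fun w => G.Adj x w)).card) (Δ : ℕ)
    (hΔ : ∀ x, (Finset.univ.filter (fun w => G.Adj x w)).card ≤ Δ) (i m m' : ℕ)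
    (hm : 1 ≤ m) (hm' : 1 ≤ m') (h : m + m' = 2 * i) :
    ∑ x, W G m x x * W G m' x x ≤ Δ * a G (i - 1) := by
  rcases Nat.mod_two_eq_zero_or_one m with h1 | h1
  · obtain ⟨p, rfl⟩ : ∃ p, m = 2 * p := ⟨m / 2, by omega⟩
    obtain ⟨q, rfl⟩ : ∃ q, m' = 2 * q := ⟨m' / 2, by omega⟩
    unfold a
    rw [Finset.mul_sum]
    refine Finset.sum_le_sum fun x _ => ?_
    have h2 : b G p x * b G q x ≤ b G 1 x * b G (p + q - 1) x :=
      lc_first (fun j => b_logconvex G j x) (b_pos G hd x) p q (by omega) (by omega)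
    calc W G (2 * p) x x * W G (2 * q) x x = b G p x * b G q x := rfl
      _ ≤ b G 1 x * b G (p + q - 1) x := h2
      _ ≤ Δ * b G (i - 1) x := by
          rw [b_one, show p + q - 1 = i - 1 by omega]
          exact Nat.mul_le_mul_right _ (hΔ x)
  · have : ∑ x, W G m x x * W G m' x x = 0 := by
      refine Finset.sum_eq_zero fun x _ => ?_
      rw [W_odd c hc m h1 x, zero_mul]
    rw [this]
    exact Nat.zero_le _

/-- the bad pairs -/
noncomputable def Bad (G : SimpleGraph V) (i : ℕ) (u v : V) : Finset (G.Walk u v × G.Walk u v) :=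
  (F G i u v ×ˢ F G i u v).filter (fun p => ¬ Good p.1 p.2)

lemma bad_type {G : SimpleGraph V} {i : ℕ} {u v : V} (p : G.Walk u v × G.Walk u v)
    (hp : p ∈ Bad G i u v) :
    (∃ q ∈ (Finset.range (i + 1) ×ˢ Finset.range (i + 1)).filter
        (fun q => 1 ≤ q.2 ∧ q.1 + q.2 ≤ i), TA q.1 q.2 (i - q.1 - q.2) p.1) ∨
    (∃ q ∈ (Finset.range (i + 1) ×ˢ Finset.range (i + 1)).filter
        (fun q => 1 ≤ q.2 ∧ q.1 + q.2 ≤ i), TA q.1 q.2 (i - q.1 - q.2) p.2) ∨
    (∃ q ∈ (Finset.range (i + 1) ×ˢ Finset.range (i + 1)).filter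
        (fun q => (1 ≤ q.1 ∧ q.1 < i) ∧ (1 ≤ q.2 ∧ q.2 < i)),
          TC q.1 (i - q.1) q.2 (i - q.2) p.1 p.2) := by
  unfold Bad at hp
  rw [Finset.mem_filter, Finset.mem_product, mem_F, mem_F] at hp
  obtain ⟨⟨h1, h2⟩, h3⟩ := hp
  have key : ∀ P : G.Walk u v, P.length = i → ¬ P.IsPath →
      ∃ q ∈ (Finset.range (i + 1) ×ˢ Finset.range (i + 1)).filter
        (fun q => 1 ≤ q.2 ∧ q.1 + q.2 ≤ i), TA q.1 q.2 (i - q.1 - q.2) P := by
    intro P hP hnp
    obtain ⟨x, P1, P2, P3, h4, h5⟩ := not_path P hnp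
    have h6 : P1.length + P2.length + P3.length = i := by
      rw [← hP, h4, SimpleGraph.Walk.length_append, SimpleGraph.Walk.length_append]
    refine ⟨(P1.length, P2.length), ?_, x, P1, P2, P3, h4, rfl, rfl, ?_⟩
    · rw [Finset.mem_filter, Finset.mem_product, Finset.mem_range, Finset.mem_range]
      exact ⟨⟨by simp only; omega, by simp only; omega⟩, h5, by simp only; omega⟩
    · simp only
      omega
  by_cases hP : p.1.IsPath
  · by_cases hQ : p.2.IsPath
    · right; right
      have h4 : ∃ x, x ∈ p.1.support ∧ x ∈ p.2.support ∧ x ≠ u ∧ x ≠ v := by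
        by_contra hcon
        apply h3
        refine ⟨hP, hQ, fun x hx1 hx2 => ?_⟩
        by_contra hx
        rw [not_or] at hx
        exact hcon ⟨x, hx1, hx2, hx.1, hx.2⟩
      obtain ⟨x, hx1, hx2, hxu, hxv⟩ := h4
      obtain ⟨P1, P2, e1, e2, e3⟩ := split_at p.1 hx1 hxu hxv
      obtain ⟨Q1, Q2, e4, e5, e6⟩ := split_at p.2 hx2 hxu hxv
      have e7 : P1.length + P2.length = i := by
        rw [← h1, e1, SimpleGraph.Walk.length_append]
      have e8 : Q1.length + Q2.length = i := by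
        rw [← h2, e4, SimpleGraph.Walk.length_append]
      refine ⟨(P1.length, Q1.length), ?_, x, P1, P2, Q1, Q2, e1, e4, rfl, ?_, rfl, ?_⟩
      · rw [Finset.mem_filter, Finset.mem_product, Finset.mem_range, Finset.mem_range]
        simp only
        omega
      · simp only; omega
      · simp only; omega
    · right; left
      exact key p.2 h2 hQ
  · left
    exact key p.1 h1 hP

/-- there are few bad pairs -/
lemma coin {G : SimpleGraph V} (c : V → Bool) (hc : ∀ u v, G.Adj u v → c u ≠ c v)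
    (hd : ∀ x, 1 ≤ (Finset.univ.filter (fun w => G.Adj x w)).card) (Δ : ℕ)
    (hΔ : ∀ x, (Finset.univ.filter (fun w => G.Adj x w)).card ≤ Δ) (i : ℕ) (hi : 1 ≤ i) :
    ∑ u, ∑ v, (Bad G i u v).card ≤ 3 * (i + 1) ^ 2 * (Δ * a G (i - 1)) := by
  set I1 := (Finset.range (i + 1) ×ˢ Finset.range (i + 1)).filter
        (fun q : ℕ × ℕ => 1 ≤ q.2 ∧ q.1 + q.2 ≤ i) with hI1
  set I2 := (Finset.range (i + 1) ×ˢ Finset.range (i + 1)).filter
        (fun q : ℕ × ℕ => (1 ≤ q.1 ∧ q.1 < i) ∧ (1 ≤ q.2 ∧ q.2 < i)) with hI2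
  have hc1 : I1.card ≤ (i + 1) ^ 2 := by
    refine (Finset.card_filter_le _ _).trans ?_
    rw [Finset.card_product, Finset.card_range]
    exact le_of_eq (by ring)
  have hc2 : I2.card ≤ (i + 1) ^ 2 := by
    refine (Finset.card_filter_le _ _).trans ?_
    rw [Finset.card_product, Finset.card_range]
    exact le_of_eq (by ring)
  have h1 : ∀ u v, (Bad G i u v).card ≤
      ∑ q ∈ I1, (∑ x, W G q.1 u x * W G q.2 x x * W G (i - q.1 - q.2) x v) * W G i u v +
      (∑ q ∈ I1, (∑ x, W G q.1 u x * W G q.2 x x * W G (i - q.1 - q.2) x v) * W G i u v +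
      ∑ q ∈ I2, ∑ x, W G q.1 u x * W G (i - q.1) x v * (W G q.2 u x * W G (i - q.2) x v)) := by
    intro u v
    have hsub : Bad G i u v ⊆
        (I1.biUnion fun q => ((F G i u v).filter
          (fun P => TA q.1 q.2 (i - q.1 - q.2) P)) ×ˢ F G i u v) ∪
        ((I1.biUnion fun q => F G i u v ×ˢ ((F G i u v).filter
          (fun P => TA q.1 q.2 (i - q.1 - q.2) P))) ∪
        (I2.biUnion fun q => (F G i u v ×ˢ F G i u v).filter
          (fun p => TC q.1 (i - q.1) q.2 (i - q.2) p.1 p.2))) := by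
      intro p hp
      have h3 := bad_type p hp
      unfold Bad at hp
      rw [Finset.mem_filter, Finset.mem_product] at hp
      simp only [Finset.mem_union, Finset.mem_biUnion, Finset.mem_product, Finset.mem_filter]
      rcases h3 with ⟨q, hq, h⟩ | ⟨q, hq, h⟩ | ⟨q, hq, h⟩
      · left
        exact ⟨q, hq, ⟨hp.1.1, h⟩, hp.1.2⟩
      · right; left
        exact ⟨q, hq, hp.1.1, hp.1.2, h⟩
      · right; right
        exact ⟨q, hq, hp.1, h⟩
    refine (Finset.card_le_card hsub).trans ((Finset.card_union_le _ _).trans ?_)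
    refine Nat.add_le_add ?_ ((Finset.card_union_le _ _).trans (Nat.add_le_add ?_ ?_))
    · refine Finset.card_biUnion_le.trans (Finset.sum_le_sum fun q _ => ?_)
      rw [Finset.card_product]
      exact Nat.mul_le_mul_right _ (card_TA G i _ _ _ u v)
    · refine Finset.card_biUnion_le.trans (Finset.sum_le_sum fun q _ => ?_)
      rw [Finset.card_product, mul_comm]
      exact Nat.mul_le_mul_right _ (card_TA G i _ _ _ u v)
    · refine Finset.card_biUnion_le.trans (Finset.sum_le_sum fun q _ => ?_)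
      exact card_TC G i _ _ _ _ u v
  have hA : ∑ u, ∑ v, ∑ q ∈ I1,
      (∑ x, W G q.1 u x * W G q.2 x x * W G (i - q.1 - q.2) x v) * W G i u v ≤
      (i + 1) ^ 2 * (Δ * a G (i - 1)) := by
    have e1 : ∀ u, ∑ v, ∑ q ∈ I1,
      (∑ x, W G q.1 u x * W G q.2 x x * W G (i - q.1 - q.2) x v) * W G i u v =
      ∑ q ∈ I1, ∑ v,
      (∑ x, W G q.1 u x * W G q.2 x x * W G (i - q.1 - q.2) x v) * W G i u v := fun u =>
        Finset.sum_comm
    simp only [e1]
    rw [Finset.sum_comm]
    calc _ ≤ ∑ q ∈ I1, Δ * a G (i - 1) := by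
          refine Finset.sum_le_sum fun q hq => ?_
          rw [hI1, Finset.mem_filter] at hq
          rw [sum_TA]
          exact term_le c hc hd Δ hΔ i q.2 _ hq.2.1 (by omega) (by omega)
      _ = I1.card * (Δ * a G (i - 1)) := by rw [Finset.sum_const, smul_eq_mul]
      _ ≤ _ := Nat.mul_le_mul_right _ hc1
  have hC : ∑ u, ∑ v, ∑ q ∈ I2, ∑ x, W G q.1 u x * W G (i - q.1) x v *
      (W G q.2 u x * W G (i - q.2) x v) ≤ (i + 1) ^ 2 * (Δ * a G (i - 1)) := by
    have e1 : ∀ u, ∑ v, ∑ q ∈ I2, ∑ x, W G q.1 u x * W G (i - q.1) x v *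
      (W G q.2 u x * W G (i - q.2) x v) = ∑ q ∈ I2, ∑ v, ∑ x, W G q.1 u x * W G (i - q.1) x v *
      (W G q.2 u x * W G (i - q.2) x v) := fun u => Finset.sum_comm
    simp only [e1]
    rw [Finset.sum_comm]
    calc _ ≤ ∑ q ∈ I2, Δ * a G (i - 1) := by
          refine Finset.sum_le_sum fun q hq => ?_
          rw [hI2, Finset.mem_filter] at hq
          rw [sum_TC]
          exact term_le c hc hd Δ hΔ i _ _ (by omega) (by omega) (by omega)
      _ = I2.card * (Δ * a G (i - 1)) := by rw [Finset.sum_const, smul_eq_mul]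
      _ ≤ _ := Nat.mul_le_mul_right _ hc2
  calc ∑ u, ∑ v, (Bad G i u v).card ≤ _ :=
        Finset.sum_le_sum fun u _ => Finset.sum_le_sum fun v _ => h1 u v
    _ ≤ 3 * (i + 1) ^ 2 * (Δ * a G (i - 1)) := by
        simp only [Finset.sum_add_distrib]
        linarith

end Pool.Agent.Y428.Ab
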