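import Pool.Agent.Y428.Ab.Sel

/-!
# The main counting step
-/

set_option autoImplicit false
set_option linter.unusedSectionVars false

open Classical SimpleGraph

namespace Pool.Agent.Y428.Ab

variable {V Γ : Type} [Fintype V] [Group Γ]

/-- internally disjoint paths with different voltages -/
def Rl {Y : SimpleGraph V} (f : V → V → Γ) {u v : V} (P Q : Y.Walk u v) : Prop :=
  Good P Q ∧ volt f P ≠ volt f Q

/-- the number of bad pairs -/
noncomputable def bd (Y : SimpleGraph V) (f : V → V → Γ) (ℓ : ℕ) (u v : V) : ℕ :=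
  ((F Y ℓ u v ×ˢ F Y ℓ u v).filter (fun p => ¬ Rl f p.1 p.2)).card

/-- the vertices with many good walks to v -/
noncomputable def Hv (Y : SimpleGraph V) (f : V → V → Γ) (ℓ M : ℕ) (v : V) : Finset V :=
  Finset.univ.filter (fun u => 0 < W Y ℓ u v ∧ 2 * M * bd Y f ℓ u v ≤ W Y ℓ u v ^ 2)

lemma Hv_clique (Y : SimpleGraph V) (f : V → V → Γ) (ℓ M : ℕ) (v u : V)
    (hu : u ∈ Hv Y f ℓ M v) : ∃ K : Finset (Y.Walk u v), K.card = M ∧
      (∀ P ∈ K, P.length = ℓ) ∧ ∀ P ∈ K, ∀ Q ∈ K, P ≠ Q → Rl f P Q := by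
  unfold Hv at hu
  rw [Finset.mem_filter] at hu
  obtain ⟨-, h1, h2⟩ := hu
  obtain ⟨K, h3, h4, h5⟩ := clique (fun P Q : Y.Walk u v => Rl f P Q)
    (fun P Q h => ⟨h.1.symm, h.2.symm⟩) M (F Y ℓ u v) (fun P _ h => h.2 rfl)
    (Finset.card_pos.mp h1) h2
  exact ⟨K, h4, fun P hP => mem_F.mp (h3 hP), h5⟩

lemma exists_chain (Y : SimpleGraph V) (f : V → V → Γ) (ℓ M Δ : ℕ)
    (hΔ : ∀ x, (Finset.univ.filter (fun w => Y.Adj x w)).card ≤ Δ)
    (h : 2 * M * (∑ u, ∑ v, bd Y f (ℓ + 1) u v) + 12 * Δ * a Y ℓ < a Y (ℓ + 1)) :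
    ∃ v, Chn Y v (Hv Y f (ℓ + 1) M v) := by
  by_contra hno
  push Not at hno
  have h1 : ∀ v, ∑ u, W Y (ℓ + 1) u v ^ 2 ≤ 2 * M * (∑ u, bd Y f (ℓ + 1) u v) +
      12 * Δ * ∑ z, W Y ℓ z v ^ 2 := by
    intro v
    rw [← Finset.sum_filter_not_add_sum_filter Finset.univ
      (fun u => 0 < W Y (ℓ + 1) u v ∧ 2 * M * bd Y f (ℓ + 1) u v ≤ W Y (ℓ + 1) u v ^ 2)]
    refine Nat.add_le_add ?_ ?_
    · rw [Finset.mul_sum]
      calc _ ≤ ∑ u ∈ Finset.univ.filter (fun u => ¬ (0 < W Y (ℓ + 1) u v ∧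
            2 * M * bd Y f (ℓ + 1) u v ≤ W Y (ℓ + 1) u v ^ 2)), 2 * M * bd Y f (ℓ + 1) u v := by
            refine Finset.sum_le_sum fun u hu => ?_
            rw [Finset.mem_filter, not_and_or] at hu
            rcases hu.2 with h2 | h2
            · have : W Y (ℓ + 1) u v = 0 := by omega
              rw [this]
              simp
            · exact (not_le.mp h2).le
        _ ≤ _ := Finset.sum_le_sum_of_subset_of_nonneg (Finset.subset_univ _)
            fun _ _ _ => Nat.zero_le _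
    · have h2 := chn_of_large Y v (Hv Y f (ℓ + 1) M v) (fun z => W Y ℓ z v) Δ hΔ (hno v)
      simp only [← W_succ] at h2
      exact h2
  have h2 : a Y (ℓ + 1) = ∑ v, ∑ u, W Y (ℓ + 1) u v ^ 2 := by
    rw [a_sq, Finset.sum_comm]
  have h3 : a Y ℓ = ∑ v, ∑ u, W Y ℓ u v ^ 2 := by
    rw [a_sq, Finset.sum_comm]
  have h4 : a Y (ℓ + 1) ≤ 2 * M * (∑ u, ∑ v, bd Y f (ℓ + 1) u v) + 12 * Δ * a Y ℓ := by
    rw [h2, h3, Finset.sum_comm (f := fun u v => bd Y f (ℓ + 1) u v), Finset.mul_sum,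
      Finset.mul_sum, ← Finset.sum_add_distrib]
    exact Finset.sum_le_sum fun v _ => h1 v
  omega

lemma row_ge (Y : SimpleGraph V) (D : ℕ)
    (hD : ∀ x, D ≤ (Finset.univ.filter (fun w => Y.Adj x w)).card) (n : ℕ) :
    ∀ u, D ^ n ≤ ∑ v, W Y n u v := by
  induction n with
  | zero =>
    intro u
    rw [pow_zero]
    have : ∑ v, W Y 0 u v = 1 := by
      simp only [W_zero]
      simp
    rw [this]
  | succ n ih =>
    intro u
    have h1 : ∑ v, W Y (n + 1) u v =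
        ∑ w ∈ Finset.univ.filter (fun w => Y.Adj u w), ∑ v, W Y n w v := by
      simp only [W_succ]
      rw [Finset.sum_comm]
    rw [h1]
    calc D ^ (n + 1) = D * D ^ n := by ring
      _ ≤ (Finset.univ.filter (fun w => Y.Adj u w)).card * D ^ n :=
          Nat.mul_le_mul_right _ (hD u)
      _ = ∑ w ∈ Finset.univ.filter (fun w => Y.Adj u w), D ^ n := by
          rw [Finset.sum_const, smul_eq_mul]
      _ ≤ _ := Finset.sum_le_sum fun w _ => ih w

lemma a_ge (Y : SimpleGraph V) [Nonempty V] (D : ℕ)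
    (hD : ∀ x, D ≤ (Finset.univ.filter (fun w => Y.Adj x w)).card) (n : ℕ) :
    D ^ n * D ^ n ≤ a Y n := by
  have h1 : (∑ p : V × V, W Y n p.1 p.2) ^ 2 ≤
      (Fintype.card V * Fintype.card V) * ∑ p : V × V, W Y n p.1 p.2 ^ 2 := by
    have := sq_sum_le_card_mul_sum_sq (s := (Finset.univ : Finset (V × V)))
      (f := fun p => W Y n p.1 p.2)
    rw [Finset.card_univ, Fintype.card_prod] at this
    exact this
  have h2 : Fintype.card V * D ^ n ≤ ∑ p : V × V, W Y n p.1 p.2 := by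
    rw [Fintype.sum_prod_type]
    calc Fintype.card V * D ^ n = ∑ u : V, D ^ n := by
          rw [Finset.sum_const, smul_eq_mul, Finset.card_univ]
      _ ≤ _ := Finset.sum_le_sum fun u _ => row_ge Y D hD n u
  have h3 : a Y n = ∑ p : V × V, W Y n p.1 p.2 ^ 2 := by
    rw [a_sq, Fintype.sum_prod_type]
  rw [h3]
  have h4 : (Fintype.card V * D ^ n) ^ 2 ≤
      (Fintype.card V * Fintype.card V) * ∑ p : V × V, W Y n p.1 p.2 ^ 2 :=
    (Nat.pow_le_pow_left h2 2).trans h1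
  have h5 : 0 < Fintype.card V * Fintype.card V :=
    Nat.mul_pos Fintype.card_pos Fintype.card_pos
  refine Nat.le_of_mul_le_mul_left ?_ h5
  calc Fintype.card V * Fintype.card V * (D ^ n * D ^ n) = (Fintype.card V * D ^ n) ^ 2 := by ring
    _ ≤ _ := h4

/-- the main counting step -/
theorem core_chain (K ℓ k M : ℕ) (hK : 1 ≤ K) (hℓ : 1 ≤ ℓ) (hℓk : ℓ ≤ k) (hk : 2 ≤ k) :
    ∃ B : ℕ, 0 < B ∧ ∀ (V Γ : Type) [Fintype V] [Nonempty V] [Group Γ] [Fintype Γ]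
      (Y : SimpleGraph V) (c : V → Bool) (_ : ∀ u v, Y.Adj u v → c u ≠ c v) (D : ℕ) (_ : 1 ≤ D)
      (_ : ∀ x, D ≤ (Finset.univ.filter (fun w => Y.Adj x w)).card)
      (_ : ∀ x, (Finset.univ.filter (fun w => Y.Adj x w)).card ≤ K * D)
      (_ : B ^ ℓ * Fintype.card V ≤ D ^ ℓ)
      (f : V → V → Γ) (hf : ∀ u v, f v u = (f u v)⁻¹)
      (_ : ¬ cycleGraph (2 * k) ⊑ der Y f hf), ∃ v, Chn Y v (Hv Y f ℓ M v) := by
  obtain ⟨c1, hc1⟩ : ∃ c1, c1 = 3 * (k + 1) ^ 2 * K := ⟨_, rfl⟩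
  have hc1pos : 0 < c1 := by rw [hc1]; positivity
  obtain ⟨B, hB⟩ : ∃ B, B = 8 * (M + 1) * c1 ^ ℓ + 4 * (6 * M * (ℓ + 1) ^ 2 * K + 12 * K) :=
    ⟨_, rfl⟩
  have hBpos : 0 < B := by rw [hB]; positivity
  refine ⟨B, hBpos, ?_⟩
  intro V Γ _ _ _ _ Y c hc D hD hdl hdu hBt f hf hfree
  obtain ⟨l, rfl⟩ : ∃ l, ℓ = l + 1 := ⟨ℓ - 1, by omega⟩
  have hd1 : ∀ x, 1 ≤ (Finset.univ.filter (fun w => Y.Adj x w)).card := fun x => hD.trans (hdl x)
  have ha := a_ge Y D hdl (l + 1)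
  have hapos : ∀ i, 0 < a Y i := a_pos Y hd1
  have ha2 : B * D * a Y l ≤ a Y (l + 1) := by
    refine lc_up (fun i => a_logconvex Y i) hapos l (B * D) ?_
    rw [a_zero]
    calc (B * D) ^ (l + 1) * Fintype.card V = (B ^ (l + 1) * Fintype.card V) * D ^ (l + 1) := by
          rw [mul_pow]; ring
      _ ≤ D ^ (l + 1) * D ^ (l + 1) := Nat.mul_le_mul_right _ hBt
      _ ≤ _ := ha
  -- the derived graph
  have hdd : ∀ x : Γ × V, (Finset.univ.filter (fun w => (der Y f hf).Adj x w)).card =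
      (Finset.univ.filter (fun w => Y.Adj x.2 w)).card := fun x => deg_der Y f hf x.1 x.2
  have hc' : ∀ p q : Γ × V, (der Y f hf).Adj p q → c p.2 ≠ c q.2 := fun p q h => hc _ _ h.1
  have hder1 : a (der Y f hf) k ≤ c1 * D * a (der Y f hf) (k - 1) := by
    have h1 := coin (G := der Y f hf) (fun p => c p.2) hc' (fun x => by rw [hdd]; exact hd1 _)
      (K * D) (fun x => by rw [hdd]; exact hdu _) k (by omega)
    have h2 : a (der Y f hf) k = ∑ u, ∑ v, (Bad (der Y f hf) k u v).card := by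
      rw [a_sq]
      refine Finset.sum_congr rfl fun u _ => Finset.sum_congr rfl fun v _ => ?_
      have : Bad (der Y f hf) k u v = F (der Y f hf) k u v ×ˢ F (der Y f hf) k u v := by
        unfold Bad
        rw [Finset.filter_eq_self]
        rintro ⟨P, Q⟩ hp hg
        rw [Finset.mem_product, mem_F, mem_F] at hp
        exact hfree (cyc_of_good _ k hk P Q hp.1 hp.2 hg)
      rw [this, Finset.card_product]
      unfold W
      ring
    rw [h2]
    refine h1.trans (le_of_eq ?_)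
    rw [hc1]
    ring
  have hder2 : a (der Y f hf) (l + 1) ≤ (c1 * D) ^ (l + 1) * (Fintype.card Γ * Fintype.card V) := by
    obtain ⟨k', rfl⟩ : ∃ k', k = k' + 1 := ⟨k - 1, by omega⟩
    have := lc_down (fun i => a_logconvex (der Y f hf) i)
      (a_pos (der Y f hf) (fun x => by rw [hdd]; exact hd1 _)) k' (c1 * D) hder1 (l + 1) hℓk
    rwa [a_zero, Fintype.card_prod] at this
  have hsame : ∑ u, ∑ v, (Same Y f (l + 1) u v).card ≤ (c1 * D) ^ (l + 1) * Fintype.card V := by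
    rw [a_der] at hder2
    have hΓ : 0 < Fintype.card Γ := Fintype.card_pos
    refine Nat.le_of_mul_le_mul_left ?_ hΓ
    refine hder2.trans (le_of_eq ?_)
    ring
  have hsame2 : 8 * M * ∑ u, ∑ v, (Same Y f (l + 1) u v).card ≤ a Y (l + 1) := by
    have h1 : B ^ (l + 1) * ∑ u, ∑ v, (Same Y f (l + 1) u v).card ≤
        c1 ^ (l + 1) * a Y (l + 1) := by
      calc B ^ (l + 1) * ∑ u, ∑ v, (Same Y f (l + 1) u v).card
          ≤ B ^ (l + 1) * ((c1 * D) ^ (l + 1) * Fintype.card V) := Nat.mul_le_mul_left _ hsame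
        _ = c1 ^ (l + 1) * ((B ^ (l + 1) * Fintype.card V) * D ^ (l + 1)) := by
            rw [mul_pow]; ring
        _ ≤ c1 ^ (l + 1) * (D ^ (l + 1) * D ^ (l + 1)) :=
            Nat.mul_le_mul_left _ (Nat.mul_le_mul_right _ hBt)
        _ ≤ _ := Nat.mul_le_mul_left _ ha
    have h2 : c1 ^ (l + 1) * (8 * M) ≤ B ^ (l + 1) := by
      calc c1 ^ (l + 1) * (8 * M) ≤ B := by
            rw [hB]
            nlinarith [Nat.zero_le (c1 ^ (l + 1)), Nat.zero_le (6 * M * (l + 1 + 1) ^ 2 * K)]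
        _ = B ^ 1 := (pow_one B).symm
        _ ≤ B ^ (l + 1) := Nat.pow_le_pow_right hBpos (by omega)
    have h3 : 0 < c1 ^ (l + 1) := pow_pos hc1pos _
    refine Nat.le_of_mul_le_mul_left ?_ h3
    calc c1 ^ (l + 1) * (8 * M * ∑ u, ∑ v, (Same Y f (l + 1) u v).card)
        = (c1 ^ (l + 1) * (8 * M)) * ∑ u, ∑ v, (Same Y f (l + 1) u v).card := by ring
      _ ≤ B ^ (l + 1) * ∑ u, ∑ v, (Same Y f (l + 1) u v).card := Nat.mul_le_mul_right _ h2
      _ ≤ _ := h1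
  -- bad pairs
  have hbad := coin (G := Y) c hc hd1 (K * D) hdu (l + 1) (by omega)
  rw [Nat.add_sub_cancel] at hbad
  have hbd : ∀ u v, bd Y f (l + 1) u v ≤ (Bad Y (l + 1) u v).card + (Same Y f (l + 1) u v).card := by
    intro u v
    unfold bd Bad Same
    refine le_trans (Finset.card_le_card ?_) (Finset.card_union_le _ _)
    intro p hp
    rw [Finset.mem_filter] at hp
    rw [Finset.mem_union, Finset.mem_filter, Finset.mem_filter]
    by_cases hg : Good p.1 p.2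
    · right
      refine ⟨hp.1, ?_⟩
      by_contra hv
      exact hp.2 ⟨hg, hv⟩
    · left
      exact ⟨hp.1, hg⟩
  have hbdsum : ∑ u, ∑ v, bd Y f (l + 1) u v ≤
      ∑ u, ∑ v, (Bad Y (l + 1) u v).card + ∑ u, ∑ v, (Same Y f (l + 1) u v).card := by
    rw [← Finset.sum_add_distrib]
    refine Finset.sum_le_sum fun u _ => ?_
    rw [← Finset.sum_add_distrib]
    exact Finset.sum_le_sum fun v _ => hbd u v
  refine exists_chain Y f l M (K * D) hdu ?_
  obtain ⟨A, hA⟩ : ∃ A, A = a Y (l + 1) := ⟨_, rfl⟩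
  obtain ⟨A', hA'⟩ : ∃ A', A' = a Y l := ⟨_, rfl⟩
  obtain ⟨S, hS⟩ : ∃ S, S = ∑ u, ∑ v, (Same Y f (l + 1) u v).card := ⟨_, rfl⟩
  obtain ⟨T, hT⟩ : ∃ T, T = ∑ u, ∑ v, (Bad Y (l + 1) u v).card := ⟨_, rfl⟩
  obtain ⟨Q, hQ⟩ : ∃ Q, Q = ∑ u, ∑ v, bd Y f (l + 1) u v := ⟨_, rfl⟩
  rw [← hA, ← hA', ← hQ]
  rw [← hA, ← hA'] at ha2
  rw [← hS, ← hA] at hsame2
  rw [← hT, ← hA'] at hbad
  rw [← hQ, ← hT, ← hS] at hbdsum
  have hApos : 0 < A := by rw [hA]; exact hapos _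
  have e1 : 4 * (2 * M * (3 * (l + 1 + 1) ^ 2 * (K * D * A')) + 12 * (K * D) * A') ≤ A := by
    calc 4 * (2 * M * (3 * (l + 1 + 1) ^ 2 * (K * D * A')) + 12 * (K * D) * A')
        = (4 * (6 * M * (l + 1 + 1) ^ 2 * K + 12 * K)) * D * A' := by ring
      _ ≤ B * D * A' := by
          refine Nat.mul_le_mul_right _ (Nat.mul_le_mul_right _ ?_)
          rw [hB]
          omega
      _ ≤ A := ha2
  have e2 : 2 * M * Q ≤ 2 * M * (3 * (l + 1 + 1) ^ 2 * (K * D * A')) + 2 * M * S := by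
    rw [← Nat.mul_add]
    exact Nat.mul_le_mul_left _ (hbdsum.trans (Nat.add_le_add_right hbad _))
  have e3 : 4 * (2 * M * S) ≤ A := by
    refine le_trans (le_of_eq ?_) hsame2
    ring
  omega

end Pool.Agent.Y428.Ab
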