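import Pool.Agent.Y428.Ab.Coin2
import Pool.Agent.H694R4.Key

/-!
# Cycles from paths
-/

set_option autoImplicit false
set_option linter.unusedSectionVars false

open Classical SimpleGraph

namespace Pool.Agent.Y428.Ab

variable {V : Type}

/-- a closed walk without repeated vertices -/
lemma cyc_of_walk (X : SimpleGraph V) (x : V) (w : X.Walk x x) (n : ℕ) (hn : 3 ≤ n)
    (hl : w.length = n) (hnd : w.support.tail.Nodup) : SimpleGraph.cycleGraph n ⊑ X := by
  have hlen : w.support.length = n + 1 := by rw [SimpleGraph.Walk.length_support, hl]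
  have hget : ∀ i, i < n → w.support.tail[i]? = some (w.getVert (i + 1)) := by
    intro i hi
    rw [List.getElem?_tail, SimpleGraph.Walk.getVert_eq_support_getElem? w (by omega)]
  refine Pool.Agent.H694R4.cycle_of_fun X n hn (fun i => w.getVert (i + 1)) ?_ ?_ ?_
  · intro i hi
    exact w.adj_getVert_succ (by omega)
  · have h1 : w.getVert (n - 1 + 1) = x := by
      rw [show n - 1 + 1 = n by omega, ← hl, SimpleGraph.Walk.getVert_length]
    have h2 : X.Adj (w.getVert 0) (w.getVert (0 + 1)) := w.adj_getVert_succ (by omega)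
    rw [SimpleGraph.Walk.getVert_zero] at h2
    rw [h1]
    exact h2
  · intro i j hij hj h
    have h1 := hget i (by omega)
    have h2 := hget j (by omega)
    rw [h] at h1
    rw [← h2] at h1
    have h3 : i < w.support.tail.length := by rw [List.length_tail, hlen]; omega
    have := (List.getElem?_inj h3 hnd).mp h1
    omega

/-- a closed chain of paths -/
lemma cyc_of_segs (X : SimpleGraph V) (m : ℕ) (c : ℕ → V) (hc : c m = c 0) (len : ℕ → ℕ)
    (S : ℕ → Set V)
    (hq : ∀ i < m, ∃ q : X.Walk (c i) (c (i + 1)), q.length = len i ∧ q.support.tail.Nodup ∧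
      ∀ x ∈ q.support.tail, x ∈ S i)
    (hS : ∀ i < m, ∀ j < m, i ≠ j → ∀ x, x ∈ S i → x ∉ S j)
    (hn : 3 ≤ ∑ i ∈ Finset.range m, len i) :
    SimpleGraph.cycleGraph (∑ i ∈ Finset.range m, len i) ⊑ X := by
  have key : ∀ n, n ≤ m → ∃ w : X.Walk (c 0) (c n), w.length = ∑ i ∈ Finset.range n, len i ∧
      w.support.tail.Nodup ∧ ∀ x ∈ w.support.tail, ∃ i < n, x ∈ S i := by
    intro n
    induction n with
    | zero =>
      intro _
      exact ⟨SimpleGraph.Walk.nil, by simp, by simp, by simp⟩
    | succ n ih =>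
      intro hnm
      obtain ⟨w, h1, h2, h3⟩ := ih (by omega)
      obtain ⟨q, h4, h5, h6⟩ := hq n (by omega)
      have hs : (w.append q).support.tail = w.support.tail ++ q.support.tail := by
        rw [SimpleGraph.Walk.support_append, ← SimpleGraph.Walk.cons_tail_support w]
        rfl
      refine ⟨w.append q, ?_, ?_, ?_⟩
      · rw [SimpleGraph.Walk.length_append, h1, h4, Finset.sum_range_succ]
      · rw [hs, List.nodup_append]
        refine ⟨h2, h5, ?_⟩
        intro x hx y hy hxy
        subst hxy
        obtain ⟨i, hi, hxi⟩ := h3 x hx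
        exact hS i (by omega) n (by omega) (by omega) x hxi (h6 x hy)
      · intro x hx
        rw [hs, List.mem_append] at hx
        rcases hx with hx | hx
        · obtain ⟨i, hi, hxi⟩ := h3 x hx
          exact ⟨i, by omega, hxi⟩
        · exact ⟨n, by omega, h6 x hx⟩
  obtain ⟨w, h1, h2, -⟩ := key m le_rfl
  exact cyc_of_walk X (c 0) (w.copy rfl hc) _ hn (by rw [SimpleGraph.Walk.length_copy, h1])
    (by rw [SimpleGraph.Walk.support_copy]; exact h2)

lemma tail_nodup {X : SimpleGraph V} {u v : V} {p : X.Walk u v} (hp : p.IsPath) :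
    p.support.tail.Nodup := by
  have := hp.support_nodup
  rw [← SimpleGraph.Walk.cons_tail_support] at this
  exact (List.nodup_cons.mp this).2

lemma tail_ne {X : SimpleGraph V} {u v x : V} {p : X.Walk u v} (hp : p.IsPath)
    (hx : x ∈ p.support.tail) : x ∈ p.support ∧ x ≠ u := by
  have := hp.support_nodup
  rw [← SimpleGraph.Walk.cons_tail_support] at this
  refine ⟨List.mem_of_mem_tail hx, ?_⟩
  rintro rfl
  exact (List.nodup_cons.mp this).1 hx

/-- good pairs give cycles -/
lemma cyc_of_good (X : SimpleGraph V) (k : ℕ) (hk : 2 ≤ k) {u v : V} (P Q : X.Walk u v)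
    (hP : P.length = k) (hQ : Q.length = k) (h : Good P Q) :
    SimpleGraph.cycleGraph (2 * k) ⊑ X := by
  have huv : u ≠ v := by
    rintro rfl
    have := (SimpleGraph.Walk.isPath_iff_nil.mp h.1).length_eq_zero
    omega
  refine cyc_of_walk X u (P.append Q.reverse) (2 * k) (by omega)
    (by rw [SimpleGraph.Walk.length_append, SimpleGraph.Walk.length_reverse]; omega) ?_
  have hs : (P.append Q.reverse).support.tail = P.support.tail ++ Q.reverse.support.tail := by
    rw [SimpleGraph.Walk.support_append, ← SimpleGraph.Walk.cons_tail_support P]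
    rfl
  have hQr : Q.reverse.IsPath := (SimpleGraph.Walk.isPath_reverse_iff Q).mpr h.2.1
  rw [hs, List.nodup_append]
  refine ⟨tail_nodup h.1, tail_nodup hQr, ?_⟩
  intro x hx y hy hxy
  subst hxy
  obtain ⟨h1, h2⟩ := tail_ne h.1 hx
  obtain ⟨h3, h4⟩ := tail_ne hQr hy
  rw [SimpleGraph.Walk.support_reverse, List.mem_reverse] at h3
  rcases h.2.2 x h1 h3 with h5 | h5
  · exact h2 h5
  · exact h4 h5

end Pool.Agent.Y428.Ab
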