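import Pool.Agent.Y428.Ab.Cyc

/-!
# Derived graphs of voltage assignments
-/

set_option autoImplicit false
set_option linter.unusedSectionVars false

open Classical SimpleGraph

namespace Pool.Agent.Y428.Ab

variable {V Γ : Type} [Group Γ]

/-- the derived graph -/
def der (Y : SimpleGraph V) (f : V → V → Γ) (hf : ∀ u v, f v u = (f u v)⁻¹) :
    SimpleGraph (Γ × V) where
  Adj p q := Y.Adj p.2 q.2 ∧ q.1 = p.1 * f p.2 q.2
  symm := ⟨by
    rintro ⟨g, u⟩ ⟨h, v⟩ ⟨h1, h2⟩
    refine ⟨h1.symm, ?_⟩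
    simp only at h2 ⊢
    rw [h2, hf u v, mul_inv_cancel_right]⟩
  loopless := ⟨fun p h => Y.irrefl h.1⟩

/-- the voltage of a walk -/
def volt {Y : SimpleGraph V} (f : V → V → Γ) : ∀ {u v : V}, Y.Walk u v → Γ
  | _, _, SimpleGraph.Walk.nil => 1
  | _, _, SimpleGraph.Walk.cons (u := u) (v := w) _ p => f u w * volt f p

lemma volt_append {Y : SimpleGraph V} (f : V → V → Γ) {u v w : V} (p : Y.Walk u v)
    (q : Y.Walk v w) : volt f (p.append q) = volt f p * volt f q := by
  induction p with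
  | nil => simp [volt]
  | cons h p ih => rw [SimpleGraph.Walk.cons_append, volt, volt, ih, mul_assoc]

variable (Y : SimpleGraph V) (f : V → V → Γ) (hf : ∀ u v, f v u = (f u v)⁻¹)

section count

variable [Fintype V]

/-- number of walks with given voltage -/
noncomputable def N (n : ℕ) (x : Γ) (u v : V) : ℕ :=
  ((F Y n u v).filter (fun p => volt f p = x)).card

lemma N_zero (x : Γ) (u v : V) : N Y f 0 x u v = if x = 1 ∧ u = v then 1 else 0 := by
  unfold N
  split_ifs with h
  · obtain ⟨rfl, rfl⟩ := h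
    rw [Finset.card_eq_one]
    refine ⟨SimpleGraph.Walk.nil, ?_⟩
    ext p
    rw [Finset.mem_filter, mem_F, Finset.mem_singleton]
    constructor
    · rintro ⟨h1, -⟩
      exact SimpleGraph.Walk.eq_nil_iff_nil.mpr (SimpleGraph.Walk.length_eq_zero_iff.mp h1)
    · rintro rfl
      exact ⟨rfl, rfl⟩
  · rw [Finset.card_eq_zero, Finset.eq_empty_iff_forall_notMem]
    intro p hp
    rw [Finset.mem_filter, mem_F] at hp
    have huv := SimpleGraph.Walk.eq_of_length_eq_zero hp.1
    subst huv
    have h1 : p = SimpleGraph.Walk.nil :=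
      SimpleGraph.Walk.eq_nil_iff_nil.mpr (SimpleGraph.Walk.length_eq_zero_iff.mp hp.1)
    rw [h1] at hp
    exact h ⟨hp.2.symm, rfl⟩

lemma N_succ (n : ℕ) (x : Γ) (u v : V) : N Y f (n + 1) x u v =
    ∑ w ∈ Finset.univ.filter (fun w => Y.Adj u w), N Y f n ((f u w)⁻¹ * x) w v := by
  unfold N
  have hmem : ∀ p ∈ (F Y (n + 1) u v).filter (fun p => volt f p = x),
      p.getVert 1 ∈ Finset.univ.filter (fun w => Y.Adj u w) := by
    intro p hp
    rw [Finset.mem_filter, mem_F] at hp
    rw [Finset.mem_filter]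
    refine ⟨Finset.mem_univ _, ?_⟩
    have := p.adj_getVert_succ (i := 0) (by omega)
    rw [SimpleGraph.Walk.getVert_zero] at this
    exact this
  rw [Finset.card_eq_sum_card_fiberwise hmem]
  refine Finset.sum_congr rfl fun w hw => ?_
  rw [Finset.mem_filter] at hw
  symm
  refine Finset.card_bij (fun p _ => SimpleGraph.Walk.cons hw.2 p) ?_ ?_ ?_
  · intro p hp
    rw [Finset.mem_filter, mem_F] at hp
    rw [Finset.mem_filter, Finset.mem_filter, mem_F]
    refine ⟨⟨by rw [SimpleGraph.Walk.length_cons, hp.1], ?_⟩, ?_⟩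
    · rw [volt, hp.2, mul_inv_cancel_left]
    · rw [SimpleGraph.Walk.getVert_cons_succ, SimpleGraph.Walk.getVert_zero]
  · intro p _ q _ h
    injection h
  · intro p hp
    rw [Finset.mem_filter, Finset.mem_filter, mem_F] at hp
    obtain ⟨⟨h1, h2⟩, h3⟩ := hp
    cases p with
    | nil => simp at h1
    | cons h p =>
      rw [SimpleGraph.Walk.getVert_cons_succ, SimpleGraph.Walk.getVert_zero] at h3
      subst h3
      refine ⟨p, ?_, rfl⟩
      rw [Finset.mem_filter, mem_F]
      rw [SimpleGraph.Walk.length_cons] at h1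
      refine ⟨by omega, ?_⟩
      rw [volt] at h2
      rw [← h2, inv_mul_cancel_left]

variable [Fintype Γ]

lemma W_der (n : ℕ) : ∀ (g h : Γ) (u v : V), W (der Y f hf) n (g, u) (h, v) =
    N Y f n (g⁻¹ * h) u v := by
  induction n with
  | zero =>
    intro g h u v
    rw [W_zero, N_zero]
    congr 1
    rw [Prod.mk.injEq, inv_mul_eq_one]
  | succ n ih =>
    intro g h u v
    rw [W_succ, N_succ]
    refine Finset.sum_bij' (fun p _ => p.2) (fun w _ => (g * f u w, w)) ?_ ?_ ?_ ?_ ?_
    · rintro ⟨k, w⟩ hp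
      rw [Finset.mem_filter] at hp ⊢
      exact ⟨Finset.mem_univ _, hp.2.1⟩
    · intro w hw
      rw [Finset.mem_filter] at hw ⊢
      exact ⟨Finset.mem_univ _, hw.2, rfl⟩
    · rintro ⟨k, w⟩ hp
      rw [Finset.mem_filter] at hp
      exact Prod.ext hp.2.2.symm rfl
    · intro w _
      rfl
    · rintro ⟨k, w⟩ hp
      rw [Finset.mem_filter] at hp
      have hk : k = g * f u w := hp.2.2
      subst hk
      rw [ih]
      congr 1
      rw [mul_inv_rev, mul_assoc]

/-- pairs with the same voltage -/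
noncomputable def Same (i : ℕ) (u v : V) : Finset (Y.Walk u v × Y.Walk u v) :=
  (F Y i u v ×ˢ F Y i u v).filter (fun p => volt f p.1 = volt f p.2)

lemma card_Same (i : ℕ) (u v : V) : (Same Y f i u v).card = ∑ x, N Y f i x u v ^ 2 := by
  rw [Finset.card_eq_sum_card_fiberwise (f := fun p => volt f p.1) (t := Finset.univ)
    (fun _ _ => Finset.mem_univ _)]
  refine Finset.sum_congr rfl fun x _ => ?_
  unfold N
  rw [sq, ← Finset.card_product]
  congr 1
  ext p
  unfold Same
  simp only [Finset.mem_filter, Finset.mem_product]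
  constructor
  · rintro ⟨⟨⟨h1, h2⟩, h3⟩, h4⟩
    exact ⟨⟨h1, h4⟩, h2, h3 ▸ h4⟩
  · rintro ⟨⟨h1, h4⟩, h2, h3⟩
    exact ⟨⟨⟨h1, h2⟩, h4.trans h3.symm⟩, h4⟩

lemma a_der (i : ℕ) : a (der Y f hf) i =
    Fintype.card Γ * ∑ u, ∑ v, (Same Y f i u v).card := by
  rw [a_sq, Fintype.sum_prod_type]
  have h1 : ∀ g : Γ, ∑ u, ∑ q : Γ × V, W (der Y f hf) i (g, u) q ^ 2 =
      ∑ u, ∑ v, (Same Y f i u v).card := by
    intro g
    refine Finset.sum_congr rfl fun u _ => ?_
    rw [Fintype.sum_prod_type, Finset.sum_comm]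
    refine Finset.sum_congr rfl fun v _ => ?_
    rw [card_Same]
    refine Fintype.sum_equiv (Equiv.mulLeft g⁻¹) _ _ fun h => ?_
    rw [W_der]
    rfl
  simp only [h1]
  rw [Finset.sum_const, smul_eq_mul, Finset.card_univ]

lemma deg_der (g : Γ) (u : V) : (Finset.univ.filter (fun w => (der Y f hf).Adj (g, u) w)).card =
    (Finset.univ.filter (fun w => Y.Adj u w)).card := by
  refine Finset.card_bij' (fun p _ => p.2) (fun w _ => (g * f u w, w)) ?_ ?_ ?_ ?_
  · rintro ⟨k, w⟩ hp
    rw [Finset.mem_filter] at hp ⊢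
    exact ⟨Finset.mem_univ _, hp.2.1⟩
  · intro w hw
    rw [Finset.mem_filter] at hw ⊢
    exact ⟨Finset.mem_univ _, hw.2, rfl⟩
  · rintro ⟨k, w⟩ hp
    rw [Finset.mem_filter] at hp
    exact Prod.ext hp.2.2.symm rfl
  · intro w _
    rfl

end count

/-- lifts of paths -/
lemma lift_path {u v : V} (P : Y.Walk u v) : P.IsPath → ∃ pot : V → Γ, pot u = 1 ∧
    pot v = volt f P ∧ ∀ g : Γ, ∃ q : (der Y f hf).Walk (g, u) (g * volt f P, v),
      q.length = P.length ∧ q.IsPath ∧ ∀ z ∈ q.support, z.2 ∈ P.support ∧ z.1 = g * pot z.2 := by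
  induction P with
  | nil =>
    rename_i u
    intro _
    refine ⟨fun _ => 1, rfl, rfl, fun g => ?_⟩
    refine ⟨(SimpleGraph.Walk.nil : (der Y f hf).Walk (g, u) (g, u)).copy rfl
      (by rw [volt, mul_one]), ?_, ?_, ?_⟩
    · rw [SimpleGraph.Walk.length_copy]; rfl
    · rw [SimpleGraph.Walk.isPath_copy]
      exact SimpleGraph.Walk.IsPath.nil
    · intro z hz
      rw [SimpleGraph.Walk.support_copy, SimpleGraph.Walk.support_nil, List.mem_singleton] at hz
      subst hz
      simp
  | cons h p ih =>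
    rename_i u w v
    intro hP
    rw [SimpleGraph.Walk.cons_isPath_iff] at hP
    obtain ⟨pot, h1, h2, h3⟩ := ih hP.1
    have hwu : w ≠ u := h.ne'
    have hvu : v ≠ u := by
      rintro rfl
      exact hP.2 p.end_mem_support
    refine ⟨fun y => if y = u then 1 else f u w * pot y, ?_, ?_, fun g => ?_⟩
    · simp only [if_true]
    · simp only [if_neg hvu, h2, volt]
    · obtain ⟨q, h4, h5, h6⟩ := h3 (g * f u w)
      have hadj : (der Y f hf).Adj (g, u) (g * f u w, w) := ⟨h, rfl⟩
      have hq : (g, u) ∉ q.support := fun hq => hP.2 (h6 _ hq).1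
      refine ⟨(SimpleGraph.Walk.cons hadj q).copy rfl
        (by rw [volt, mul_assoc]), ?_, ?_, ?_⟩
      · rw [SimpleGraph.Walk.length_copy, SimpleGraph.Walk.length_cons, h4,
          SimpleGraph.Walk.length_cons]
      · rw [SimpleGraph.Walk.isPath_copy, SimpleGraph.Walk.cons_isPath_iff]
        exact ⟨h5, hq⟩
      · intro z hz
        rw [SimpleGraph.Walk.support_copy, SimpleGraph.Walk.support_cons, List.mem_cons] at hz
        rw [SimpleGraph.Walk.support_cons, List.mem_cons]
        rcases hz with hz | hz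
        · subst hz
          simp
        · obtain ⟨h7, h8⟩ := h6 z hz
          have hzu : z.2 ≠ u := by
            intro h9
            rw [h9] at h7
            exact hP.2 h7
          refine ⟨Or.inr h7, ?_⟩
          simp only [if_neg hzu]
          rw [h8, mul_assoc]

end Pool.Agent.Y428.Ab
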