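import Pool.Agent.Y428.Ab.Red

/-!
# The number of edges
-/

set_option autoImplicit false
set_option linter.unusedSectionVars false

open Classical SimpleGraph

namespace Pool.Agent.Y428.Ab

section

variable {Γ V : Type} [Group Γ] [MulAction Γ V]

/-- the number of edges and the quotient graph -/
lemma edges_quo [Fintype V] [Fintype Γ] (X : SimpleGraph V)
    (haut : ∀ (g : Γ) (a c : V), X.Adj a c → X.Adj (g • a) (g • c)) {t : ℕ} (r : Fin t → V)
    (π : V → Fin t) (hπ : ∀ u, ∃ g : Γ, u = g • r (π u))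
    (hfib : ∀ i, (Finset.univ.filter (fun u => π u = i)).card = Fintype.card Γ)
    (hor : ∀ u v, π u = π v → u ∈ MulAction.orbit Γ v) (D0 n : ℕ)
    (hloc : ∀ u v : V, (D0 : ℕ∞) ≤ (X.neighborSet u ∩ MulAction.orbit Γ v).encard →
      cycleGraph n ⊑ X) (hX : ¬ cycleGraph n ⊑ X) :
    X.edgeSet.ncard ≤ D0 * (Fintype.card V +
      Fintype.card Γ * (2 * (quo X haut r).edgeSet.ncard)) := by
  set L : Finset (V × V) := Finset.univ.filter fun q => X.Adj q.1 q.2 with hL
  have hsmall : ∀ u v, (X.neighborSet u ∩ MulAction.orbit Γ v).ncard ≤ D0 := by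
    intro u v
    by_contra hcon
    push Not at hcon
    refine hX (hloc u v ?_)
    rw [← Set.Finite.cast_ncard_eq (Set.toFinite _)]
    exact_mod_cast hcon.le
  have h1 : X.edgeSet ⊆ ((L.image fun q => s(q.1, q.2) : Finset (Sym2 V)) : Set (Sym2 V)) := by
    intro e he
    induction e with
    | _ u v =>
      rw [SimpleGraph.mem_edgeSet] at he
      rw [Finset.coe_image]
      exact ⟨(u, v), by simpa [hL] using he, rfl⟩
  have h2 : X.edgeSet.ncard ≤ L.card := by
    refine (Set.ncard_le_ncard h1 (Finset.finite_toSet _)).trans ?_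
    rw [Set.ncard_coe_finset]
    exact Finset.card_image_le
  refine h2.trans ?_
  set P : Finset (V × Fin t) := Finset.univ.filter fun q => q.2 = π q.1 ∨
    (quo X haut r).Adj (π q.1) q.2 with hP
  have h3 : ∀ q ∈ L, (q.1, π q.2) ∈ P := by
    rintro ⟨u, v⟩ hq
    rw [hL, Finset.mem_filter] at hq
    rw [hP, Finset.mem_filter]
    refine ⟨Finset.mem_univ _, ?_⟩
    simp only at hq ⊢
    by_cases huv : π v = π u
    · exact Or.inl huv
    · right
      refine ⟨fun h => huv h.symm, ?_⟩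
      obtain ⟨g, hg⟩ := hπ u
      obtain ⟨h, hh⟩ := hπ v
      have h4 := haut g⁻¹ _ _ hq.2
      rw [hg, inv_smul_smul] at h4
      refine ⟨g⁻¹ * h, ?_⟩
      rw [mul_smul, ← hh]
      rw [hg] at h4
      have e1 : π (g • r (π u)) = π u := by rw [← hg]
      rw [e1] at h4
      exact h4
  have h4 : L.card ≤ D0 * P.card := by
    rw [Finset.card_eq_sum_card_fiberwise h3]
    calc _ ≤ ∑ y ∈ P, D0 := by
          refine Finset.sum_le_sum ?_
          rintro ⟨x, o⟩ _
          rcases Finset.eq_empty_or_nonempty (L.filter fun q => (q.1, π q.2) = (x, o)) with h | h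
          · rw [h]
            simp
          · obtain ⟨⟨u, v⟩, h⟩ := h
            rw [Finset.mem_filter, Prod.mk.injEq] at h
            obtain ⟨h5, rfl, rfl⟩ := h
            refine le_trans ?_ (hsmall u v)
            rw [Set.ncard_eq_toFinset_card _ (Set.toFinite _)]
            refine Finset.card_le_card_of_injOn (fun q => q.2) ?_ ?_
            · rintro ⟨a, e⟩ hq
              rw [Finset.mem_coe, Finset.mem_filter, Prod.mk.injEq] at hq
              obtain ⟨h8, h9, h10⟩ := hq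
              simp only at h9 h10
              subst h9
              have h11 := (Finset.mem_filter.mp h8).2
              simp only [Set.Finite.coe_toFinset]
              exact ⟨h11, hor _ _ h10⟩
            · rintro ⟨a, e⟩ hq ⟨a', e'⟩ hq' hee
              rw [Finset.mem_coe, Finset.mem_filter, Prod.mk.injEq] at hq hq'
              simp only at hee hq hq'
              rw [hq.2.1, hq'.2.1, hee]
      _ = D0 * P.card := by rw [Finset.sum_const, smul_eq_mul, mul_comm]
  refine h4.trans (Nat.mul_le_mul_left _ ?_)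
  have h5 : P.card = ∑ u : V, (Finset.univ.filter fun o : Fin t => o = π u ∨
      (quo X haut r).Adj (π u) o).card := by
    rw [hP, ← Finset.univ_product_univ, Finset.card_filter, Finset.sum_product]
    refine Finset.sum_congr rfl fun u _ => ?_
    rw [Finset.card_filter]
  have h6 : ∀ u : V, (Finset.univ.filter fun o : Fin t => o = π u ∨
      (quo X haut r).Adj (π u) o).card ≤ 1 + (quo X haut r).degree (π u) := by
    intro u
    rw [Finset.filter_or]
    refine (Finset.card_union_le _ _).trans (Nat.add_le_add ?_ ?_)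
    · rw [Finset.filter_eq' Finset.univ (π u), if_pos (Finset.mem_univ _), Finset.card_singleton]
    · rw [← SimpleGraph.card_neighborFinset_eq_degree, SimpleGraph.neighborFinset_eq_filter]
  have h7 : ∑ u : V, (quo X haut r).degree (π u) =
      Fintype.card Γ * (2 * (quo X haut r).edgeSet.ncard) := by
    have h8 : ∑ u : V, (quo X haut r).degree (π u) =
        ∑ i : Fin t, ∑ u ∈ Finset.univ.filter (fun u => π u = i), (quo X haut r).degree i := by
      rw [← Finset.sum_fiberwise (s := Finset.univ) (g := π)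
        (f := fun u => (quo X haut r).degree (π u))]
      refine Finset.sum_congr rfl fun i _ => Finset.sum_congr rfl fun u hu => ?_
      rw [Finset.mem_filter] at hu
      rw [hu.2]
    rw [h8]
    simp only [Finset.sum_const, smul_eq_mul, hfib]
    rw [← Finset.mul_sum, SimpleGraph.sum_degrees_eq_twice_card_edges]
    have h9 : (quo X haut r).edgeSet.ncard = (quo X haut r).edgeFinset.card := by
      rw [← SimpleGraph.coe_edgeFinset, Set.ncard_coe_finset]
    rw [h9]
  calc P.card ≤ ∑ u : V, (1 + (quo X haut r).degree (π u)) := by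
        rw [h5]
        exact Finset.sum_le_sum fun u _ => h6 u
    _ = _ := by
        rw [Finset.sum_add_distrib, h7, Finset.sum_const, smul_eq_mul, mul_one, Finset.card_univ]

end

/-- the bound for the number of edges -/
theorem assemble (ℓ n D0 : ℕ) (hℓ : 2 ≤ ℓ) (Bf : ℕ → ℕ) (hBf : ∀ K, 0 < Bf K) : ∃ C : ℕ,
    ∀ (Γ V : Type) [Group Γ] [Finite V] [MulAction Γ V] (X : SimpleGraph V)
    (_ : ∀ (g : Γ) (a c : V), X.Adj a c → X.Adj (g • a) (g • c))
    (_ : ∀ (g : Γ) (a : V), g • a = a → g = 1)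
    (_ : ∀ K, 1 ≤ K → CoreP Γ K (Bf K) ℓ n)
    (_ : ∀ u v : V, (D0 : ℕ∞) ≤ (X.neighborSet u ∩ MulAction.orbit Γ v).encard →
      cycleGraph n ⊑ X) (_ : (cycleGraph n).Free X),
    X.edgeSet.ncard ^ ℓ ≤
      C * (Nat.card V ^ ℓ * Nat.card (MulAction.orbitRel.Quotient Γ V)) := by
  have hℓ0 : (0 : ℝ) < ℓ := by exact_mod_cast (by omega : 0 < ℓ)
  have hε0 : (0 : ℝ) < 1 / (ℓ : ℝ) := by positivity
  have hε1 : 1 / (ℓ : ℝ) < 1 := by
    rw [div_lt_one hℓ0]
    exact_mod_cast (by omega : 1 < ℓ)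
  obtain ⟨K, hK, hreg⟩ := Pool.Agent.W247.BC.reg_holds (1 / (ℓ : ℝ)) hε0 hε1
  obtain ⟨C', hC'⟩ := hreg (Bf K : ℝ)
  obtain ⟨C2, hC2⟩ : ∃ C2 : ℕ, C' ≤ C2 := ⟨⌈C'⌉₊, Nat.le_ceil C'⟩
  refine ⟨(D0 * (1 + 2 * C2)) ^ ℓ, ?_⟩
  intro Γ V _ _ _ X haut hfree hcore hloc hX
  have := Fintype.ofFinite V
  rcases isEmpty_or_nonempty V with hV | ⟨⟨v0⟩⟩
  · have : X.edgeSet.ncard = 0 := by
      rw [Set.ncard_eq_zero]
      exact Set.eq_empty_of_isEmpty _
    rw [this, zero_pow (by omega)]
    exact Nat.zero_le _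
  have hΓ : Finite Γ := Finite.of_injective (fun g : Γ => g • v0) (by
    intro g h hgh
    have hgh' : g • v0 = h • v0 := hgh
    have h1 : (h⁻¹ * g) • v0 = v0 := by rw [mul_smul, hgh', inv_smul_smul]
    have h2 := hfree _ _ h1
    exact (inv_mul_eq_one.mp h2).symm)
  have := Fintype.ofFinite Γ
  have := Fintype.ofFinite (MulAction.orbitRel.Quotient Γ V)
  set O := MulAction.orbitRel.Quotient Γ V with hO
  obtain ⟨t, ht⟩ : ∃ t, t = Fintype.card O := ⟨_, rfl⟩
  let e : O ≃ Fin t := Fintype.equivFinOfCardEq ht.symm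
  let π : V → Fin t := fun u => e (Quotient.mk'' u)
  let r : Fin t → V := fun i => (e.symm i).out
  have hor : ∀ u v, π u = π v → u ∈ MulAction.orbit Γ v := by
    intro u v h
    have h1 : (Quotient.mk'' u : O) = Quotient.mk'' v := e.injective h
    exact (MulAction.orbitRel_apply).mp (Quotient.exact h1)
  have hpr : ∀ i, π (r i) = i := by
    intro i
    have h1 : (Quotient.mk'' ((e.symm i).out) : O) = e.symm i := Quotient.out_eq' _
    have h2 : π (r i) = e (Quotient.mk'' ((e.symm i).out) : O) := rfl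
    rw [h2, h1, Equiv.apply_symm_apply]
  have hπg : ∀ (g : Γ) (u : V), π (g • u) = π u := by
    intro g u
    have h1 : (Quotient.mk'' (g • u) : O) = Quotient.mk'' u :=
      Quotient.sound (MulAction.orbitRel_apply.mpr (MulAction.mem_orbit u g))
    have h2 : π (g • u) = e (Quotient.mk'' (g • u) : O) := rfl
    rw [h2, h1]
  have hπ : ∀ u, ∃ g : Γ, u = g • r (π u) := by
    intro u
    obtain ⟨g, hg⟩ := hor u (r (π u)) (hpr (π u)).symm
    exact ⟨g, hg.symm⟩
  have hr : ∀ (i j : Fin t) (g : Γ), r i = g • r j → i = j := by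
    intro i j g h
    rw [← hpr i, h, hπg, hpr]
  have hfib : ∀ i, (Finset.univ.filter (fun u => π u = i)).card = Fintype.card Γ := by
    intro i
    symm
    rw [← Finset.card_univ]
    refine Finset.card_bij (fun g _ => g • r i) ?_ ?_ ?_
    · intro g _
      rw [Finset.mem_filter]
      exact ⟨Finset.mem_univ _, by rw [hπg, hpr]⟩
    · intro g _ h _ hgh
      have hgh' : g • r i = h • r i := hgh
      have h1 : (h⁻¹ * g) • r i = r i := by rw [mul_smul, hgh', inv_smul_smul]
      exact (inv_mul_eq_one.mp (hfree _ _ h1)).symm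
    · intro u hu
      rw [Finset.mem_filter] at hu
      obtain ⟨g, hg⟩ := hπ u
      rw [hu.2] at hg
      exact ⟨g, Finset.mem_univ _, hg.symm⟩
  have hn : Fintype.card V = Fintype.card Γ * t := by
    rw [← Finset.card_univ, Finset.card_eq_sum_card_fiberwise (f := π) (t := Finset.univ)
      (fun _ _ => Finset.mem_univ _)]
    simp only [hfib]
    rw [Finset.sum_const, smul_eq_mul, Finset.card_univ, Fintype.card_fin, mul_comm]
  have ht1 : 1 ≤ t := by
    have : 0 < Fintype.card V := Fintype.card_pos_iff.mpr ⟨v0⟩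
    rw [hn] at this
    exact Nat.pos_of_mul_pos_left this
  have h1 := edges_quo X haut r π hπ hfib hor D0 n hloc hX
  -- the quotient graph is sparse
  have h2 : ((quo X haut r).edgeSet.ncard : ℝ) ≤ C2 * (t : ℝ) ^ (1 + 1 / (ℓ : ℝ)) := by
    by_contra hcon
    push Not at hcon
    have h3 : C' * (t : ℝ) ^ (1 + 1 / (ℓ : ℝ)) < ((quo X haut r).edgeSet.ncard : ℝ) :=
      lt_of_le_of_lt (mul_le_mul_of_nonneg_right hC2 (by positivity)) hcon
    obtain ⟨U, W, D, g1, g2, g3, g4, g5, g6⟩ := hC' t (quo X haut r) h3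
    exact hX (from_quo ℓ n K (Bf K) (by omega) (hBf K) (hcore K hK) X haut hfree r hr U W D g1 g2
      g4 g5 g6)
  have htR : (1 : ℝ) ≤ (t : ℝ) := by exact_mod_cast ht1
  have hroot : (1 : ℝ) ≤ (t : ℝ) ^ (1 / (ℓ : ℝ)) := Real.one_le_rpow htR hε0.le
  have hsplit : (t : ℝ) ^ (1 + 1 / (ℓ : ℝ)) = t * (t : ℝ) ^ (1 / (ℓ : ℝ)) := by
    rw [Real.rpow_add (by linarith), Real.rpow_one]
  have h3 : (X.edgeSet.ncard : ℝ) ≤
      (D0 * (1 + 2 * C2) : ℕ) * ((Fintype.card V : ℝ) * (t : ℝ) ^ (1 / (ℓ : ℝ))) := by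
    have h4 : (X.edgeSet.ncard : ℝ) ≤ (D0 : ℝ) * ((Fintype.card V : ℝ) +
      Fintype.card Γ * (2 * ((quo X haut r).edgeSet.ncard : ℝ))) := by exact_mod_cast h1
    refine h4.trans ?_
    push_cast
    rw [mul_assoc]
    refine mul_le_mul_of_nonneg_left ?_ (by positivity)
    have h5 : (Fintype.card V : ℝ) ≤ (Fintype.card V : ℝ) * (t : ℝ) ^ (1 / (ℓ : ℝ)) :=
      le_mul_of_one_le_right (by positivity) hroot
    have h6 : (Fintype.card Γ : ℝ) * (2 * ((quo X haut r).edgeSet.ncard : ℝ)) ≤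
        2 * C2 * ((Fintype.card V : ℝ) * (t : ℝ) ^ (1 / (ℓ : ℝ))) := by
      calc (Fintype.card Γ : ℝ) * (2 * ((quo X haut r).edgeSet.ncard : ℝ))
          ≤ (Fintype.card Γ : ℝ) * (2 * (C2 * (t : ℝ) ^ (1 + 1 / (ℓ : ℝ)))) := by
            gcongr
        _ = 2 * C2 * (((Fintype.card Γ * t : ℕ) : ℝ) * (t : ℝ) ^ (1 / (ℓ : ℝ))) := by
            rw [hsplit]; push_cast; ring
        _ = _ := by rw [← hn]
    calc (Fintype.card V : ℝ) + Fintype.card Γ * (2 * ((quo X haut r).edgeSet.ncard : ℝ))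
        ≤ (Fintype.card V : ℝ) * (t : ℝ) ^ (1 / (ℓ : ℝ)) +
          2 * C2 * ((Fintype.card V : ℝ) * (t : ℝ) ^ (1 / (ℓ : ℝ))) := add_le_add h5 h6
      _ = _ := by ring
  have h4 : (X.edgeSet.ncard : ℝ) ^ ℓ ≤
      ((D0 * (1 + 2 * C2) : ℕ) * ((Fintype.card V : ℝ) * (t : ℝ) ^ (1 / (ℓ : ℝ)))) ^ ℓ :=
    pow_le_pow_left₀ (by positivity) h3 ℓ
  rw [mul_pow, mul_pow, ← Real.rpow_natCast ((t : ℝ) ^ (1 / (ℓ : ℝ))) ℓ,
    ← Real.rpow_mul (by positivity), one_div, inv_mul_cancel₀ hℓ0.ne', Real.rpow_one] at h4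
  rw [Nat.card_eq_fintype_card, Nat.card_eq_fintype_card, ← ht]
  exact_mod_cast h4

end Pool.Agent.Y428.Ab
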