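import Pool.Agent.Y428.Ab.Asm
import Pool.Agent.H694R4.Law.Fin

/-!
# Subdivided Haar graphs
-/

set_option autoImplicit false
set_option linter.unusedSectionVars false

open Classical SimpleGraph

namespace Pool.Agent.Y428.Ab

open Pool.Agent.H694R4.Law (haar)

/-- a copy of a cycle as a periodic sequence -/
lemma cyc_fun {α : Type} (X : SimpleGraph α) (m : ℕ) (hm : 3 ≤ m) (h : cycleGraph m ⊑ X) :
    ∃ c : ℕ → α, (∀ i, X.Adj (c i) (c (i + 1))) ∧ c m = c 0 ∧
      (∀ i j, c i = c j → i % m = j % m) := by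
  obtain ⟨φ⟩ := h
  have hm0 : NeZero m := ⟨by omega⟩
  refine ⟨fun i => φ (Fin.ofNat m i), ?_, ?_, ?_⟩
  · intro i
    refine φ.toHom.map_adj ?_
    rw [cycleGraph_adj']
    right
    have h1 : Fin.ofNat m (i + 1) - Fin.ofNat m i = Fin.ofNat m 1 := by
      apply Fin.ext
      rw [Fin.sub_def]
      simp only [Fin.ofNat_eq_cast, Fin.val_natCast]
      have h2 := Nat.mod_lt i (by omega : 0 < m)
      rcases Nat.lt_or_ge (i % m + 1) m with h3 | h3
      · have h4 : (i + 1) % m = i % m + 1 := by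
          rw [Nat.add_mod, Nat.mod_eq_of_lt (by omega : 1 < m), Nat.mod_eq_of_lt h3]
        rw [h4, show m - i % m + (i % m + 1) = 1 + m by omega, Nat.add_mod_right]
      · have h4 : (i + 1) % m = 0 := by
          rw [Nat.add_mod, Nat.mod_eq_of_lt (by omega : 1 < m), show i % m + 1 = m by omega,
            Nat.mod_self]
        rw [h4, show m - i % m + 0 = 1 by omega]
    rw [h1]
    simp only [Fin.ofNat_eq_cast, Fin.val_natCast]
    exact Nat.mod_eq_of_lt (by omega)
  · simp only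
    congr 1
    apply Fin.ext
    simp
  · intro i j hij
    have h1 := φ.injective hij
    have h2 := congrArg Fin.val h1
    simp only [Fin.ofNat_eq_cast, Fin.val_natCast] at h2
    exact h2

variable {V Γ : Type} [Fintype V] [Group Γ]

theorem haar_sub (Y : SimpleGraph V) (f : V → V → Γ) (hf : ∀ u v, f v u = (f u v)⁻¹)
    {u v : V} (K : Finset (Y.Walk u v)) (hK : ∀ P ∈ K, ∀ Q ∈ K, P ≠ Q → Rl f P Q) (ℓ : ℕ)
    (hℓ : 1 ≤ ℓ) (hlen : ∀ P ∈ K, P.length = ℓ) (h2 : 2 ≤ K.card) (k : ℕ) (hk : 2 ≤ k)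
    (hc : cycleGraph (2 * k) ⊑ haar ((K.image (fun P => volt f P) : Finset Γ) : Set Γ)) :
    cycleGraph (2 * (k * ℓ)) ⊑ der Y f hf := by
  obtain ⟨Q0, hQ0⟩ : K.Nonempty := Finset.card_pos.mp (by omega)
  have : Nonempty (Y.Walk u v) := ⟨Q0⟩
  have hpath : ∀ P ∈ K, P.IsPath := by
    intro P hP
    obtain ⟨Q, hQ, hne⟩ : ∃ Q ∈ K, Q ≠ P := by
      by_contra hcon
      push Not at hcon
      have h3 : K ⊆ {P} := fun x hx => Finset.mem_singleton.mpr (hcon x hx)
      have := Finset.card_le_card h3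
      rw [Finset.card_singleton] at this
      omega
    exact (hK P hP Q hQ hne.symm).1.1
  have hch : ∀ s ∈ K.image (fun P => volt f P), ∃ (P : Y.Walk u v) (pot : V → Γ), P ∈ K ∧
      volt f P = s ∧ pot u = 1 ∧ pot v = s ∧
      (∀ g h : Γ, g * s = h → ∃ q : (der Y f hf).Walk (g, u) (h, v),
        q.length = ℓ ∧ q.support.tail.Nodup ∧ ∀ z ∈ q.support.tail, z ∈ SS P pot g u) ∧
      (∀ g h : Γ, g * s = h → ∃ q : (der Y f hf).Walk (h, v) (g, u),
        q.length = ℓ ∧ q.support.tail.Nodup ∧ ∀ z ∈ q.support.tail, z ∈ SS P pot g v) := by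
    intro s hs
    rw [Finset.mem_image] at hs
    obtain ⟨P, hP, hPs⟩ := hs
    obtain ⟨pot, a1, a2, a3, a4⟩ := seg Y f hf P (hpath P hP)
    rw [hPs, hlen P hP] at a3 a4
    exact ⟨P, pot, hP, hPs, a1, a2.trans hPs, a3, a4⟩
  choose! P pot hPK hPs hp1 hp2 hfw hbw using hch
  obtain ⟨c, c1, c2, c3⟩ := cyc_fun _ (2 * k) (by omega) hc
  let x : ℕ → Γ := fun i => if (c i).2 = true then (c i).1 else (c (i + 1)).1
  let y : ℕ → Γ := fun i => if (c i).2 = true then (c (i + 1)).1 else (c i).1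
  let s : ℕ → Γ := fun i => (x i)⁻¹ * y i
  have hcase : ∀ i, s i ∈ K.image (fun P => volt f P) ∧
      (((c i).2 = true ∧ c i = (x i, true) ∧ c (i + 1) = (y i, false)) ∨
      ((c i).2 = false ∧ c i = (y i, false) ∧ c (i + 1) = (x i, true))) := by
    intro i
    rcases c1 i with ⟨e1, e2, e3⟩ | ⟨e1, e2, e3⟩
    · have hx : x i = (c i).1 := by simp only [x, if_pos e1]
      have hy : y i = (c (i + 1)).1 := by simp only [y, if_pos e1]
      refine ⟨?_, Or.inl ⟨e1, ?_, ?_⟩⟩
      · simp only [s]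
        rw [hx, hy]
        exact_mod_cast e3
      · rw [hx]; exact Prod.ext rfl e1
      · rw [hy]; exact Prod.ext rfl e2
    · have e2' : ¬ (c i).2 = true := by rw [e2]; simp
      have hx : x i = (c (i + 1)).1 := by simp only [x, if_neg e2']
      have hy : y i = (c i).1 := by simp only [y, if_neg e2']
      refine ⟨?_, Or.inr ⟨e2, ?_, ?_⟩⟩
      · simp only [s]
        rw [hx, hy]
        exact_mod_cast e3
      · rw [hy]; exact Prod.ext rfl e2
      · rw [hx]; exact Prod.ext rfl e1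
  let cc : ℕ → Γ × V := fun i => ((c i).1, if (c i).2 = true then u else v)
  let S : ℕ → Set (Γ × V) := fun i =>
    if (c i).2 = true then SS (P (s i)) (pot (s i)) (x i) u
    else SS (P (s i)) (pot (s i)) (x i) v
  have hsum : ∑ i ∈ Finset.range (2 * k), (fun _ : ℕ => ℓ) i = 2 * (k * ℓ) := by
    rw [Finset.sum_const, Finset.card_range, smul_eq_mul, mul_assoc]
  rw [← hsum]
  refine cyc_of_segs (der Y f hf) (2 * k) cc ?_ (fun _ => ℓ) S ?_ ?_ ?_
  · simp only [cc, c2]
  · intro i _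
    obtain ⟨h3, h4 | h4⟩ := hcase i
    · obtain ⟨h5, h6, h7⟩ := h4
      obtain ⟨q, q1, q2, q3⟩ := hfw (s i) h3 (x i) (y i) (mul_inv_cancel_left _ _)
      have e1 : cc i = (x i, u) := by simp only [cc, h6, if_true]
      have e2 : cc (i + 1) = (y i, v) := by simp [cc, h7]
      rw [e1, e2]
      refine ⟨q, q1, q2, ?_⟩
      simp only [S, if_pos h5]
      exact q3
    · obtain ⟨h5, h6, h7⟩ := h4
      obtain ⟨q, q1, q2, q3⟩ := hbw (s i) h3 (x i) (y i) (mul_inv_cancel_left _ _)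
      have e1 : cc i = (y i, v) := by simp [cc, h6]
      have e2 : cc (i + 1) = (x i, u) := by simp only [cc, h7, if_true]
      have h5' : ¬ (c i).2 = true := by rw [h5]; simp
      rw [e1, e2]
      refine ⟨q, q1, q2, ?_⟩
      simp only [S, if_neg h5']
      exact q3
  · intro i hi j hj hij z hz1 hz2
    have hmod : ∀ a b, a ≤ 2 * k → b ≤ 2 * k → c a = c b → a ≠ b →
        (a = 0 ∧ b = 2 * k) ∨ (b = 0 ∧ a = 2 * k) := by
      intro a b ha hb hab hne
      have h3 := c3 a b hab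
      rcases Nat.lt_or_ge a (2 * k) with h4 | h4 <;> rcases Nat.lt_or_ge b (2 * k) with h5 | h5
      · rw [Nat.mod_eq_of_lt h4, Nat.mod_eq_of_lt h5] at h3
        exact absurd h3 hne
      · have : b = 2 * k := by omega
        rw [this, Nat.mod_self, Nat.mod_eq_of_lt h4] at h3
        exact Or.inl ⟨h3, this⟩
      · have : a = 2 * k := by omega
        rw [this, Nat.mod_self, Nat.mod_eq_of_lt h5] at h3
        exact Or.inr ⟨h3.symm, this⟩
      · omega
    have n1 : c (i + 1) ≠ c (j + 1) := by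
      intro h
      have := hmod _ _ (by omega) (by omega) h (by omega)
      omega
    have n2 : c i ≠ c j := by
      intro h
      have := hmod _ _ (by omega) (by omega) h hij
      omega
    have n3 : ¬ (c i = c (j + 1) ∧ c (i + 1) = c j) := by
      rintro ⟨h, h'⟩
      by_cases e1 : i = j + 1
      · have := hmod _ _ (by omega) (by omega) h' (by omega)
        omega
      · have h3 := hmod _ _ (by omega) (by omega) h e1
        by_cases e2 : i + 1 = j
        · omega
        · have h4 := hmod _ _ (by omega) (by omega) h' e2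
          omega
    obtain ⟨hs1, hc1⟩ := hcase i
    obtain ⟨hs2, hc2⟩ := hcase j
    by_cases hss : s i = s j
    · -- the same path
      have hxx : x i = x j := by
        by_contra hne
        simp only [S] at hz1 hz2
        rw [hss] at hz1
        split_ifs at hz1 hz2
        all_goals exact SS_same hne hz1 hz2
      have hyy : y i = y j := by
        have h3 : x i * s i = x j * s j := by rw [hxx, hss]
        simp only [s, mul_inv_cancel_left] at h3
        exact h3
      rcases hc1 with ⟨a1, a2, a3⟩ | ⟨a1, a2, a3⟩ <;> rcases hc2 with ⟨b1, b2, b3⟩ | ⟨b1, b2, b3⟩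
      · exact n2 (by rw [a2, b2, hxx])
      · exact n3 ⟨by rw [a2, b3, hxx], by rw [a3, b2, hyy]⟩
      · exact n3 ⟨by rw [a2, b3, hyy], by rw [a3, b2, hxx]⟩
      · exact n2 (by rw [a2, b2, hyy])
    · have hPP : P (s i) ≠ P (s j) := by
        intro h
        apply hss
        rw [← hPs (s i) hs1, ← hPs (s j) hs2, h]
      have hd := (hK _ (hPK _ hs1) _ (hPK _ hs2) hPP).1.2.2
      have hd' := (hK _ (hPK _ hs2) _ (hPK _ hs1) hPP.symm).1.2.2
      simp only [S] at hz1 hz2
      rcases hc1 with ⟨a1, a2, a3⟩ | ⟨a1, a2, a3⟩ <;> rcases hc2 with ⟨b1, b2, b3⟩ | ⟨b1, b2, b3⟩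
      · rw [if_pos a1] at hz1
        rw [if_pos b1] at hz2
        refine SS_ff hd ?_ hz1 hz2
        rw [hp2 _ hs1, hp2 _ hs2]
        intro h
        apply n1
        rw [a3, b3]
        simp only [s, mul_inv_cancel_left] at h
        rw [h]
      · rw [if_pos a1] at hz1
        rw [if_neg (by rw [b1]; simp)] at hz2
        exact SS_fb hd hz1 hz2
      · rw [if_neg (by rw [a1]; simp)] at hz1
        rw [if_pos b1] at hz2
        exact SS_fb hd' hz2 hz1
      · rw [if_neg (by rw [a1]; simp)] at hz1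
        rw [if_neg (by rw [b1]; simp)] at hz2
        refine SS_bb hd ?_ hz1 hz2
        rw [hp1 _ hs1, hp1 _ hs2, mul_one, mul_one]
        intro h
        apply n1
        rw [a3, b3, h]
  · rw [hsum]
    nlinarith

/-- the cycle in the derived graph, for groups whose Haar graphs contain short even cycles -/
theorem core_haar (K ℓ k N : ℕ) (hK : 1 ≤ K) (hℓ : 1 ≤ ℓ) (hk : 2 ≤ k) :
    ∃ B : ℕ, 0 < B ∧ ∀ (V Γ : Type) [Fintype V] [Nonempty V] [Group Γ] [Fintype Γ]
      (Y : SimpleGraph V) (c : V → Bool) (_ : ∀ u v, Y.Adj u v → c u ≠ c v) (D : ℕ) (_ : 1 ≤ D)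
      (_ : ∀ x, D ≤ (Finset.univ.filter (fun w => Y.Adj x w)).card)
      (_ : ∀ x, (Finset.univ.filter (fun w => Y.Adj x w)).card ≤ K * D)
      (_ : B ^ ℓ * Fintype.card V ≤ D ^ ℓ)
      (f : V → V → Γ) (hf : ∀ u v, f v u = (f u v)⁻¹)
      (_ : ∀ T : Finset Γ, N ≤ T.card → cycleGraph (2 * k) ⊑ haar (T : Set Γ)),
      cycleGraph (2 * (k * ℓ)) ⊑ der Y f hf := by
  obtain ⟨B, hB, h⟩ := core_chain K ℓ (k * ℓ) (N + 2) hK hℓ (by nlinarith) (by nlinarith)
  refine ⟨B, hB, ?_⟩
  intro V Γ _ _ _ _ Y c hc D hD hdl hdu hBt f hf hT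
  by_contra hfree
  obtain ⟨v, u0, z1, u1, z2, u2, m0, -⟩ := h V Γ Y c hc D hD hdl hdu hBt f hf hfree
  obtain ⟨Kc, k1, k2, k3⟩ := Hv_clique Y f ℓ _ v u0 m0
  refine hfree (haar_sub Y f hf Kc k3 ℓ hℓ k2 (by omega) k hk (hT _ ?_))
  rw [Finset.card_image_of_injOn, k1]
  · omega
  · intro P hP Q hQ hPQ
    by_contra hne
    exact (k3 P hP Q hQ hne).2 hPQ

end Pool.Agent.Y428.Ab
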