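import Pool.Agent.Y428.Ab.Fin
import Pool.Agent.H694R4.Law.Fin3
import Pool.Agent.H694R4.Fin

/-!
# Many neighbours in one orbit, nilpotent groups
-/

set_option autoImplicit false
set_option linter.unusedSectionVars false

open Classical SimpleGraph

namespace Pool.Agent.Y428.Ab

open Pool.Agent.H694R4.Law (haar)

/-- the degrees between two orbits of a free action are equal -/
lemma ncard_symm {Γ V : Type} [Group Γ] [MulAction Γ V] (X : SimpleGraph V)
    (haut : ∀ (g : Γ) (a c : V), X.Adj a c → X.Adj (g • a) (g • c))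
    (hfree : ∀ (g : Γ) (a : V), g • a = a → g = 1) (u v : V) :
    (X.neighborSet u ∩ MulAction.orbit Γ v).ncard =
      (X.neighborSet v ∩ MulAction.orbit Γ u).ncard := by
  have h1 : X.neighborSet u ∩ MulAction.orbit Γ v =
      (fun g : Γ => g • v) '' {g | X.Adj u (g • v)} := by
    ext x
    constructor
    · rintro ⟨h, g, rfl⟩
      exact ⟨g, h, rfl⟩
    · rintro ⟨g, h, rfl⟩
      exact ⟨h, g, rfl⟩
  have h2 : X.neighborSet v ∩ MulAction.orbit Γ u =
      (fun g : Γ => g⁻¹ • u) '' {g | X.Adj u (g • v)} := by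
    ext x
    constructor
    · rintro ⟨h, g, rfl⟩
      refine ⟨g⁻¹, ?_, by simp⟩
      have := haut g⁻¹ _ _ h
      simp only [inv_smul_smul] at this
      exact this.symm
    · rintro ⟨g, h, rfl⟩
      refine ⟨?_, g⁻¹, rfl⟩
      have := haut g⁻¹ _ _ h
      rw [inv_smul_smul] at this
      exact this.symm
  have inj : ∀ (w : V) (g h : Γ), g • w = h • w → g = h := by
    intro w g h hgh
    have h1 : (h⁻¹ * g) • w = w := by rw [mul_smul, hgh, inv_smul_smul]
    exact (inv_mul_eq_one.mp (hfree _ _ h1)).symm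
  rw [h1, h2, Set.ncard_image_of_injective _ (inj v),
    Set.ncard_image_of_injective _ (fun g h hgh => inv_injective (inj u _ _ hgh))]

/-- the local bound for nilpotent groups -/
lemma loc_nil {Γ V : Type} [Group Γ] [MulAction Γ V] [Finite V] [Group.IsNilpotent Γ]
    (X : SimpleGraph V) (haut : ∀ (g : Γ) (a c : V), X.Adj a c → X.Adj (g • a) (g • c))
    (hfree : ∀ (g : Γ) (a : V), g • a = a → g = 1) (c k : ℕ)
    (hc : Group.nilpotencyClass Γ ≤ c) (hc1 : 1 ≤ c) (hk : 3 * 2 ^ c ≤ k + 3) (u v : V)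
    (h : ((2 * (k + 1) ^ 2 : ℕ) : ℕ∞) ≤ (X.neighborSet u ∩ MulAction.orbit Γ v).encard) :
    cycleGraph (2 * k) ⊑ X := by
  have hΓ : Finite Γ := Finite.of_injective (fun g : Γ => g • v) (by
    intro g h hgh
    have hgh' : g • v = h • v := hgh
    have h1 : (h⁻¹ * g) • v = v := by rw [mul_smul, hgh', inv_smul_smul]
    exact (inv_mul_eq_one.mp (hfree _ _ h1)).symm)
  rw [← Set.Finite.cast_ncard_eq (Set.toFinite _)] at h
  have h' : 2 * (k + 1) ^ 2 ≤ (X.neighborSet u ∩ MulAction.orbit Γ v).ncard := by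
    exact_mod_cast h
  obtain ⟨v', hv', hv''⟩ : (X.neighborSet u ∩ MulAction.orbit Γ v).Nonempty := by
    rw [← Set.ncard_pos]
    nlinarith
  rw [← MulAction.orbit_eq_iff.mpr hv''] at h'
  refine Pool.Agent.H694R4.two_orbits X haut c k hc hc1 hk u v' hv' h' ?_
  rw [← ncard_symm X haut hfree]
  exact h'

/-- Haar graphs of nilpotent groups -/
lemma haar_nil {Γ : Type} [Group Γ] [Finite Γ] [Group.IsNilpotent Γ] (c k : ℕ)
    (hc : Group.nilpotencyClass Γ ≤ c) (hc1 : 1 ≤ c) (hk : 3 * 2 ^ c ≤ k + 3) (T : Finset Γ)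
    (hT : 2 * (k + 1) ^ 2 ≤ T.card) : cycleGraph (2 * k) ⊑ haar (T : Set Γ) := by
  let act : MulAction Γ (Γ × Bool) :=
    { smul := fun g x => (g * x.1, x.2)
      one_smul := fun x => Prod.ext (one_mul _) rfl
      mul_smul := fun g h x => Prod.ext (mul_assoc _ _ _) rfl }
  have hs : ∀ (g : Γ) (x : Γ × Bool), g • x = (g * x.1, x.2) := fun _ _ => rfl
  have haut : ∀ (g : Γ) (a c : Γ × Bool), (haar (T : Set Γ)).Adj a c →
      (haar (T : Set Γ)).Adj (g • a) (g • c) := by
    rintro g ⟨a, a'⟩ ⟨b, b'⟩ h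
    rw [hs, hs]
    rcases h with ⟨h1, h2, h3⟩ | ⟨h1, h2, h3⟩
    · refine Or.inl ⟨h1, h2, ?_⟩
      simp only at h3 ⊢
      rw [mul_inv_rev, mul_assoc, inv_mul_cancel_left]
      exact h3
    · refine Or.inr ⟨h1, h2, ?_⟩
      simp only at h3 ⊢
      rw [mul_inv_rev, mul_assoc, inv_mul_cancel_left]
      exact h3
  have hfree : ∀ (g : Γ) (a : Γ × Bool), g • a = a → g = 1 := by
    rintro g ⟨a, a'⟩ h
    rw [hs] at h
    have := congrArg Prod.fst h
    simpa using this
  refine loc_nil (haar (T : Set Γ)) haut hfree c k hc hc1 hk (1, true) (1, false) ?_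
  have h1 : ((fun s : Γ => (s, false)) '' (T : Set Γ)) ⊆
      (haar (T : Set Γ)).neighborSet (1, true) ∩ MulAction.orbit Γ ((1, false) : Γ × Bool) := by
    rintro _ ⟨s, hs', rfl⟩
    refine ⟨Or.inl ⟨rfl, rfl, by simpa using hs'⟩, s, ?_⟩
    show s • ((1, false) : Γ × Bool) = (s, false)
    rw [hs, mul_one]
  refine le_trans ?_ (Set.encard_le_encard h1)
  rw [Function.Injective.encard_image (fun a b hab => congrArg Prod.fst hab),
    Set.encard_coe_eq_coe_finsetCard]
  exact_mod_cast hT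

end Pool.Agent.Y428.Ab
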