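import Pool.Agent.Y428.Ab.Haar
import Pool.Agent.TH476.Up

/-!
# From free actions to voltage assignments
-/

set_option autoImplicit false
set_option linter.unusedSectionVars false

open Classical SimpleGraph

namespace Pool.Agent.Y428.Ab

/-- cycles in dense derived graphs -/
def CoreP (Γ : Type) [Group Γ] (K B ℓ n : ℕ) : Prop :=
  ∀ (V : Type) [Fintype V] [Nonempty V] [Fintype Γ]
    (Y : SimpleGraph V) (c : V → Bool) (_ : ∀ u v, Y.Adj u v → c u ≠ c v) (D : ℕ) (_ : 1 ≤ D)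
    (_ : ∀ x, D ≤ (Finset.univ.filter (fun w => Y.Adj x w)).card)
    (_ : ∀ x, (Finset.univ.filter (fun w => Y.Adj x w)).card ≤ K * D)
    (_ : B ^ ℓ * Fintype.card V ≤ D ^ ℓ)
    (f : V → V → Γ) (hf : ∀ u v, f v u = (f u v)⁻¹),
    cycleGraph n ⊑ der Y f hf

section act

variable {Γ V : Type} [Group Γ] [MulAction Γ V]

/-- the quotient graph, for representatives r of the orbits -/
def quo (X : SimpleGraph V) (haut : ∀ (g : Γ) (a c : V), X.Adj a c → X.Adj (g • a) (g • c))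
    {t : ℕ} (r : Fin t → V) : SimpleGraph (Fin t) where
  Adj i j := i ≠ j ∧ ∃ g : Γ, X.Adj (r i) (g • r j)
  symm := ⟨by
    rintro i j ⟨h1, g, h2⟩
    refine ⟨h1.symm, g⁻¹, ?_⟩
    have := haut g⁻¹ _ _ h2
    rw [inv_smul_smul] at this
    exact this.symm⟩
  loopless := ⟨fun i h => h.1 rfl⟩

/-- a choice of voltages -/
noncomputable def vg (X : SimpleGraph V) {t : ℕ} (r : Fin t → V) (i j : Fin t) : Γ :=
  if h : ∃ g : Γ, X.Adj (r i) (g • r j) then h.choose else 1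

/-- a choice of voltages, compatible with inverses -/
noncomputable def vf (X : SimpleGraph V) {t : ℕ} (r : Fin t → V) (i j : Fin t) : Γ :=
  if i < j then vg X r i j else if j < i then (vg X r j i)⁻¹ else 1

lemma vf_inv (X : SimpleGraph V) {t : ℕ} (r : Fin t → V) (i j : Fin t) :
    (vf X r j i : Γ) = (vf X r i j)⁻¹ := by
  unfold vf
  rcases lt_trichotomy i j with h | h | h
  · rw [if_neg (not_lt.mpr h.le), if_pos h, if_pos h]
  · subst h
    simp
  · rw [if_pos h, if_neg (not_lt.mpr h.le), if_pos h, inv_inv]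

lemma vf_adj (X : SimpleGraph V) (haut : ∀ (g : Γ) (a c : V), X.Adj a c → X.Adj (g • a) (g • c))
    {t : ℕ} (r : Fin t → V) (i j : Fin t) (h : (quo X haut r).Adj i j) :
    X.Adj (r i) ((vf X r i j : Γ) • r j) := by
  have key : ∀ i j, (quo X haut r).Adj i j → X.Adj (r i) ((vg X r i j : Γ) • r j) := by
    intro i j h
    unfold vg
    rw [dif_pos h.2]
    exact h.2.choose_spec
  unfold vf
  rcases lt_trichotomy i j with h1 | h1 | h1
  · rw [if_pos h1]
    exact key i j h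
  · exact absurd h1 h.1
  · rw [if_neg (not_lt.mpr h1.le), if_pos h1]
    have h2 := key j i h.symm
    have := haut (vg X r j i : Γ)⁻¹ _ _ h2
    rw [inv_smul_smul] at this
    exact this.symm

/-- the derived graph is a subgraph -/
lemma der_sub (X : SimpleGraph V) (haut : ∀ (g : Γ) (a c : V), X.Adj a c → X.Adj (g • a) (g • c))
    (hfree : ∀ (g : Γ) (a : V), g • a = a → g = 1) {t : ℕ} (r : Fin t → V)
    (hr : ∀ (i j : Fin t) (g : Γ), r i = g • r j → i = j) {W : Type} (ι : W → Fin t)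
    (hι : Function.Injective ι) (Y : SimpleGraph W)
    (hY : ∀ a b, Y.Adj a b → (quo X haut r).Adj (ι a) (ι b))
    (hf : ∀ u v : W, (vf X r (ι v) (ι u) : Γ) = (vf X r (ι u) (ι v))⁻¹) :
    der Y (fun a b => (vf X r (ι a) (ι b) : Γ)) hf ⊑ X := by
  refine ⟨⟨⟨fun p => p.1 • r (ι p.2), ?_⟩, ?_⟩⟩
  · rintro ⟨g, a⟩ ⟨h, b⟩ ⟨h1, h2⟩
    simp only at h1 h2 ⊢
    rw [h2, mul_smul]
    exact haut g _ _ (vf_adj X haut r _ _ (hY a b h1))
  · rintro ⟨g, a⟩ ⟨h, b⟩ hab
    have hab' : g • r (ι a) = h • r (ι b) := hab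
    have h1 : r (ι a) = (g⁻¹ * h) • r (ι b) := by
      rw [mul_smul, ← hab', inv_smul_smul]
    have h2 := hι (hr _ _ _ h1)
    subst h2
    have h3 := hfree _ _ h1.symm
    have h4 : g = h := (inv_mul_eq_one.mp h3)
    rw [h4]

/-- the cycle from a dense bipartite part of the quotient graph -/
lemma from_quo (ℓ n K B : ℕ) (hℓ : 1 ≤ ℓ) (hB : 0 < B) (hΓ : CoreP Γ K B ℓ n) [Finite Γ]
    (X : SimpleGraph V)
    (haut : ∀ (g : Γ) (a c : V), X.Adj a c → X.Adj (g • a) (g • c))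
    (hfree : ∀ (g : Γ) (a : V), g • a = a → g = 1) {t : ℕ} (r : Fin t → V)
    (hr : ∀ (i j : Fin t) (g : Γ), r i = g • r j → i = j)
    (U W : Finset (Fin t)) (D : ℕ) (hUW : Disjoint U W) (hU : U.Nonempty)
    (hD : (B : ℝ) * ((U.card + W.card : ℕ) : ℝ) ^ (1 / (ℓ : ℝ)) ≤ (D : ℝ))
    (hdU : ∀ u ∈ U, D ≤ (W.filter (fun w => (quo X haut r).Adj u w)).card ∧
      (W.filter (fun w => (quo X haut r).Adj u w)).card ≤ K * D)
    (hdW : ∀ w ∈ W, D ≤ (U.filter (fun u => (quo X haut r).Adj u w)).card ∧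
      (U.filter (fun u => (quo X haut r).Adj u w)).card ≤ K * D) :
    cycleGraph n ⊑ X := by
  have := Fintype.ofFinite Γ
  set Y := Pool.Agent.TH476.BG (quo X haut r) U W with hY
  have hne : Nonempty {v : Fin t // v ∈ U ∪ W} := by
    obtain ⟨u, hu⟩ := hU
    exact ⟨⟨u, Finset.mem_union_left _ hu⟩⟩
  have hcard : Fintype.card {v : Fin t // v ∈ U ∪ W} = U.card + W.card := by
    rw [Fintype.card_coe, Finset.card_union_of_disjoint hUW]
  have hUpos := hU.card_pos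
  have hdeg : ∀ v : {v : Fin t // v ∈ U ∪ W},
      D ≤ (Finset.univ.filter (fun w => Y.Adj v w)).card ∧
      (Finset.univ.filter (fun w => Y.Adj v w)).card ≤ K * D := by
    intro v
    have e1 : (Finset.univ.filter (fun w => Y.Adj v w)) = Pool.Agent.TH476.nb Y v := rfl
    rw [e1]
    rcases Finset.mem_union.mp v.2 with h | h
    · rw [(Pool.Agent.TH476.BG_nb (quo X haut r) U W hUW v).1 h]
      exact hdU v.1 h
    · rw [(Pool.Agent.TH476.BG_nb (quo X haut r) U W hUW v).2 h]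
      exact hdW v.1 h
  have hN : (1 : ℝ) ≤ ((U.card + W.card : ℕ) : ℝ) := by exact_mod_cast (by omega)
  have hpow1 : (1 : ℝ) ≤ ((U.card + W.card : ℕ) : ℝ) ^ (1 / (ℓ : ℝ)) :=
    Real.one_le_rpow hN (by positivity)
  have hB1 : (1 : ℝ) ≤ B := by exact_mod_cast hB
  have hD1 : 1 ≤ D := by
    have : (1 : ℝ) ≤ D := by nlinarith
    exact_mod_cast this
  have hBD : B ^ ℓ * Fintype.card {v : Fin t // v ∈ U ∪ W} ≤ D ^ ℓ := by
    rw [hcard]
    have h1 : ((B : ℝ) * ((U.card + W.card : ℕ) : ℝ) ^ (1 / (ℓ : ℝ))) ^ ℓ ≤ (D : ℝ) ^ ℓ :=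
      pow_le_pow_left₀ (by positivity) hD ℓ
    rw [mul_pow, ← Real.rpow_natCast (((U.card + W.card : ℕ) : ℝ) ^ (1 / (ℓ : ℝ))) ℓ,
      ← Real.rpow_mul (by positivity), one_div, inv_mul_cancel₀ (by positivity),
      Real.rpow_one] at h1
    exact_mod_cast h1
  have hc : ∀ a b, Y.Adj a b → decide (a.1 ∈ U) ≠ decide (b.1 ∈ U) := by
    rintro a b ⟨-, h | h⟩
    · have : b.1 ∉ U := fun h' => Finset.disjoint_left.mp hUW h' h.2
      simp [h.1, this]
    · have : a.1 ∉ U := fun h' => Finset.disjoint_left.mp hUW h' h.1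
      simp [h.2, this]
  have h1 := hΓ _ Y (fun a => decide (a.1 ∈ U)) hc D hD1 (fun x => (hdeg x).1)
    (fun x => (hdeg x).2) hBD (fun a b => (vf X r a.1 b.1 : Γ)) (fun a b => vf_inv X r a.1 b.1)
  refine h1.trans (der_sub X haut hfree r hr (fun a => a.1) Subtype.val_injective Y ?_ _)
  rintro a b ⟨h, -⟩
  exact h

end act

end Pool.Agent.Y428.Ab
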