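import Pool.Agent.Y428.Ab.Theta

/-!
# Many good walks, and chains of vertices with many good walks to the same vertex
-/

set_option autoImplicit false
set_option linter.unusedSectionVars false

open Classical SimpleGraph

namespace Pool.Agent.Y428.Ab

/-- a relation with few bad pairs has a clique -/
lemma clique {α : Type} (R : α → α → Prop) (hsym : ∀ x y, R x y → R y x) : ∀ (M : ℕ)
    (A : Finset α), (∀ x ∈ A, ¬ R x x) → A.Nonempty →
    2 * M * ((A ×ˢ A).filter (fun p => ¬ R p.1 p.2)).card ≤ A.card ^ 2 →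
    ∃ K : Finset α, K ⊆ A ∧ K.card = M ∧ ∀ x ∈ K, ∀ y ∈ K, x ≠ y → R x y := by
  intro M
  induction M with
  | zero =>
    intro A _ _ _
    exact ⟨∅, Finset.empty_subset _, rfl, by simp⟩
  | succ M ih =>
    intro A hirr hne hA
    obtain ⟨B, hB⟩ : ∃ B, B = ((A ×ˢ A).filter (fun p => ¬ R p.1 p.2)).card := ⟨_, rfl⟩
    rw [← hB] at hA
    have hsum : B = ∑ x ∈ A, (A.filter (fun y => ¬ R x y)).card := by
      rw [hB, Finset.card_filter, Finset.sum_product]
      refine Finset.sum_congr rfl fun x _ => ?_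
      rw [Finset.card_filter]
    have hpos : 0 < A.card := hne.card_pos
    obtain ⟨x, hx, hdx⟩ : ∃ x ∈ A, (A.filter (fun y => ¬ R x y)).card * A.card ≤ B := by
      by_contra hcon
      push Not at hcon
      have h1 : ∑ x ∈ A, B < ∑ x ∈ A, (A.filter (fun y => ¬ R x y)).card * A.card :=
        Finset.sum_lt_sum_of_nonempty hne hcon
      rw [Finset.sum_const, smul_eq_mul, ← Finset.sum_mul, ← hsum, mul_comm] at h1
      exact lt_irrefl _ h1
    have hcard : (A.filter (fun y => R x y)).card + (A.filter (fun y => ¬ R x y)).card = A.card :=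
      Finset.card_filter_add_card_filter_not _
    set A' := A.filter (fun y => R x y) with hA'
    set d := (A.filter (fun y => ¬ R x y)).card with hd
    have hsub : A' ⊆ A := Finset.filter_subset _ _
    have hB' : ((A' ×ˢ A').filter (fun p => ¬ R p.1 p.2)).card ≤ B := by
      rw [hB]
      refine Finset.card_le_card fun p hp => ?_
      rw [Finset.mem_filter, Finset.mem_product] at hp ⊢
      exact ⟨⟨hsub hp.1.1, hsub hp.1.2⟩, hp.2⟩
    have hne' : A'.Nonempty := by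
      rw [← Finset.card_pos]
      by_contra h0
      have h1 : A'.card = 0 := by omega
      rw [h1, Nat.zero_add] at hcard
      rw [hcard] at hdx
      have h2 : 2 * (M + 1) * B ≤ B := by
        calc 2 * (M + 1) * B ≤ A.card ^ 2 := hA
          _ = A.card * A.card := by ring
          _ ≤ B := hdx
      have h3 : 1 ≤ A.card * A.card := Nat.mul_pos hpos hpos
      nlinarith
    have hkey : 2 * M * ((A' ×ˢ A').filter (fun p => ¬ R p.1 p.2)).card ≤ A'.card ^ 2 := by
      have h1 : A.card ^ 2 ≤ A'.card ^ 2 + 2 * (d * A.card) := by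
        rw [← hcard]
        nlinarith [Nat.zero_le (d * d)]
      have h2 : 2 * M * ((A' ×ˢ A').filter (fun p => ¬ R p.1 p.2)).card ≤ 2 * M * B :=
        Nat.mul_le_mul_left _ hB'
      nlinarith
    obtain ⟨K, hK1, hK2, hK3⟩ := ih A' (fun y hy => hirr y (hsub hy)) hne' hkey
    have hxK : x ∉ K := by
      intro h
      have := hK1 h
      rw [hA', Finset.mem_filter] at this
      exact hirr x hx this.2
    refine ⟨insert x K, ?_, ?_, ?_⟩
    · intro y hy
      rw [Finset.mem_insert] at hy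
      rcases hy with rfl | hy
      · exact hx
      · exact hsub (hK1 hy)
    · rw [Finset.card_insert_of_notMem hxK, hK2]
    · intro y hy z hz hyz
      rw [Finset.mem_insert] at hy hz
      rcases hy with rfl | hy <;> rcases hz with rfl | hz
      · exact absurd rfl hyz
      · have := hK1 hz
        rw [hA', Finset.mem_filter] at this
        exact this.2
      · have := hK1 hy
        rw [hA', Finset.mem_filter] at this
        exact hsym _ _ this.2
      · exact hK3 y hy z hz hyz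

variable {V : Type} [Fintype V]

/-- weights of vertices with few neighbours on both sides -/
lemma part_le (Y : SimpleGraph V) (S : Finset V) (ω : V → ℕ) (p : V → Prop) [DecidablePred p] (m1 m2 : ℕ)
    (h1 : ∀ u ∈ S, ((Finset.univ.filter (fun z => Y.Adj u z)).filter p).card ≤ m1)
    (h2 : ∀ z, p z → (S.filter (fun u => Y.Adj u z)).card ≤ m2) :
    ∑ u ∈ S, (∑ z ∈ (Finset.univ.filter (fun z => Y.Adj u z)).filter p, ω z) ^ 2 ≤
      m1 * m2 * ∑ z, ω z ^ 2 := by
  have h3 : ∀ u ∈ S, (∑ z ∈ (Finset.univ.filter (fun z => Y.Adj u z)).filter p, ω z) ^ 2 ≤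
      m1 * ∑ z ∈ (Finset.univ.filter (fun z => Y.Adj u z)).filter p, ω z ^ 2 := by
    intro u hu
    calc _ ≤ ((Finset.univ.filter (fun z => Y.Adj u z)).filter p).card *
          ∑ z ∈ (Finset.univ.filter (fun z => Y.Adj u z)).filter p, ω z ^ 2 :=
          sq_sum_le_card_mul_sum_sq
      _ ≤ _ := Nat.mul_le_mul_right _ (h1 u hu)
  refine (Finset.sum_le_sum h3).trans ?_
  rw [← Finset.mul_sum, mul_assoc]
  refine Nat.mul_le_mul_left _ ?_
  have h4 : ∑ u ∈ S, ∑ z ∈ (Finset.univ.filter (fun z => Y.Adj u z)).filter p, ω z ^ 2 =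
      ∑ z ∈ Finset.univ.filter p, ∑ u ∈ S.filter (fun u => Y.Adj u z), ω z ^ 2 := by
    refine Finset.sum_comm' ?_
    intro u z
    simp only [Finset.mem_filter, Finset.mem_univ, true_and]
    tauto
  rw [h4, Finset.mul_sum]
  calc ∑ z ∈ Finset.univ.filter p, ∑ u ∈ S.filter (fun u => Y.Adj u z), ω z ^ 2
      ≤ ∑ z ∈ Finset.univ.filter p, m2 * ω z ^ 2 := by
        refine Finset.sum_le_sum fun z hz => ?_
        rw [Finset.mem_filter] at hz
        rw [Finset.sum_const, smul_eq_mul]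
        exact Nat.mul_le_mul_right _ (h2 z hz.2)
    _ ≤ ∑ z, m2 * ω z ^ 2 :=
        Finset.sum_le_sum_of_subset_of_nonneg (Finset.subset_univ _) fun _ _ _ => Nat.zero_le _

/-- a path of length four whose even vertices lie in a given set -/
def Chn (Y : SimpleGraph V) (v : V) (S : Finset V) : Prop :=
  ∃ u0 z1 u1 z2 u2 : V, u0 ∈ S ∧ u1 ∈ S ∧ u2 ∈ S ∧ Y.Adj u0 z1 ∧ Y.Adj z1 u1 ∧ Y.Adj u1 z2 ∧
    Y.Adj z2 u2 ∧ z1 ≠ z2 ∧ u0 ≠ u1 ∧ u0 ≠ u2 ∧ u1 ≠ u2 ∧ z1 ≠ v ∧ z2 ≠ v

lemma chn_of_large (Y : SimpleGraph V) (v : V) (S : Finset V) (ω : V → ℕ) (Δ : ℕ)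
    (hΔ : ∀ x, (Finset.univ.filter (fun w => Y.Adj x w)).card ≤ Δ) (hno : ¬ Chn Y v S) :
    ∑ u ∈ S, (∑ z ∈ Finset.univ.filter (fun z => Y.Adj u z), ω z) ^ 2 ≤
      12 * Δ * ∑ z, ω z ^ 2 := by
  obtain ⟨hv, hhv⟩ : ∃ hv : V → Prop, ∀ z, hv z ↔ 3 ≤ (S.filter (fun u => Y.Adj u z)).card :=
    ⟨_, fun _ => Iff.rfl⟩
  have hS : ∀ z, (S.filter (fun u => Y.Adj u z)).card ≤ Δ := by
    intro z
    refine le_trans (Finset.card_le_card ?_) (hΔ z)
    intro u hu
    rw [Finset.mem_filter] at hu ⊢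
    exact ⟨Finset.mem_univ _, hu.2.symm⟩
  have h1 : ∑ u ∈ S, (∑ z ∈ (Finset.univ.filter (fun z => Y.Adj u z)).filter
      (fun z => z ≠ v ∧ ¬ hv z), ω z) ^ 2 ≤ Δ * 2 * ∑ z, ω z ^ 2 := by
    refine part_le Y S ω _ Δ 2 ?_ ?_
    · intro u _
      exact (Finset.card_filter_le _ _).trans (hΔ u)
    · rintro z ⟨-, hz⟩
      rw [hhv] at hz
      omega
  have h2 : ∑ u ∈ S, (∑ z ∈ (Finset.univ.filter (fun z => Y.Adj u z)).filter
      (fun z => z ≠ v ∧ hv z), ω z) ^ 2 ≤ 1 * Δ * ∑ z, ω z ^ 2 := by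
    refine part_le Y S ω _ 1 Δ ?_ (fun z _ => hS z)
    intro u1 hu1
    by_contra hcon
    push Not at hcon
    obtain ⟨z1, hz1, z2, hz2, hz12⟩ := Finset.one_lt_card.mp hcon
    rw [Finset.mem_filter, Finset.mem_filter] at hz1 hz2
    obtain ⟨⟨-, ha1⟩, hv1, hz1⟩ := hz1
    obtain ⟨⟨-, ha2⟩, hv2, hz2⟩ := hz2
    obtain ⟨u0, hu0, hu01⟩ : ∃ u0 ∈ S.filter (fun u => Y.Adj u z1), u0 ≠ u1 := by
      by_contra hcon
      push Not at hcon
      have : (S.filter (fun u => Y.Adj u z1)) ⊆ {u1} := by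
        intro x hx
        rw [Finset.mem_singleton]
        exact hcon x hx
      have := Finset.card_le_card this
      rw [Finset.card_singleton] at this
      rw [hhv] at hz1
      omega
    obtain ⟨u2, hu2, hu20, hu21⟩ : ∃ u2 ∈ S.filter (fun u => Y.Adj u z2), u2 ≠ u0 ∧ u2 ≠ u1 := by
      by_contra hcon
      push Not at hcon
      have : (S.filter (fun u => Y.Adj u z2)) ⊆ {u0, u1} := by
        intro x hx
        rw [Finset.mem_insert, Finset.mem_singleton]
        by_cases hx0 : x = u0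
        · exact Or.inl hx0
        · exact Or.inr (hcon x hx hx0)
      have := Finset.card_le_card this
      have h3 := Finset.card_le_two (a := u0) (b := u1)
      rw [hhv] at hz2
      omega
    rw [Finset.mem_filter] at hu0 hu2
    exact hno ⟨u0, z1, u1, z2, u2, hu0.1, hu1, hu2.1, hu0.2, ha1.symm, ha2, hu2.2.symm, hz12,
      hu01, hu20.symm, hu21.symm, hv1, hv2⟩
  have h3 : ∑ u ∈ S, (∑ z ∈ (Finset.univ.filter (fun z => Y.Adj u z)).filter
      (fun z => z = v), ω z) ^ 2 ≤ 1 * Δ * ∑ z, ω z ^ 2 := by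
    refine part_le Y S ω _ 1 Δ ?_ (fun z _ => hS z)
    intro u _
    rw [Finset.card_le_one]
    intro a ha b hb
    rw [Finset.mem_filter] at ha hb
    rw [ha.2, hb.2]
  have h4 : ∀ u ∈ S, (∑ z ∈ Finset.univ.filter (fun z => Y.Adj u z), ω z) ^ 2 ≤
      3 * ((∑ z ∈ (Finset.univ.filter (fun z => Y.Adj u z)).filter
      (fun z => z ≠ v ∧ ¬ hv z), ω z) ^ 2 + (∑ z ∈ (Finset.univ.filter (fun z => Y.Adj u z)).filter
      (fun z => z ≠ v ∧ hv z), ω z) ^ 2 + (∑ z ∈ (Finset.univ.filter (fun z => Y.Adj u z)).filter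
      (fun z => z = v), ω z) ^ 2) := by
    intro u _
    obtain ⟨a1, ha1⟩ : ∃ a1, a1 = ∑ z ∈ (Finset.univ.filter (fun z => Y.Adj u z)).filter
      (fun z => z ≠ v ∧ ¬ hv z), ω z := ⟨_, rfl⟩
    obtain ⟨a2, ha2⟩ : ∃ a2, a2 = ∑ z ∈ (Finset.univ.filter (fun z => Y.Adj u z)).filter
      (fun z => z ≠ v ∧ hv z), ω z := ⟨_, rfl⟩
    obtain ⟨a3, ha3⟩ : ∃ a3, a3 = ∑ z ∈ (Finset.univ.filter (fun z => Y.Adj u z)).filter
      (fun z => z = v), ω z := ⟨_, rfl⟩
    have h5 : ∑ z ∈ Finset.univ.filter (fun z => Y.Adj u z), ω z = a1 + a2 + a3 := by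
      rw [ha1, ha2, ha3, ← Finset.sum_filter_add_sum_filter_not
        (Finset.univ.filter (fun z => Y.Adj u z)) (fun z => z = v), add_comm]
      congr 1
      rw [← Finset.sum_filter_add_sum_filter_not ((Finset.univ.filter
        (fun z => Y.Adj u z)).filter (fun z => ¬ z = v)) hv, add_comm]
      simp only [Finset.filter_filter, ne_eq, and_assoc]
    rw [h5, ← ha1, ← ha2, ← ha3]
    zify
    nlinarith [sq_nonneg ((a1 : ℤ) - a2), sq_nonneg ((a2 : ℤ) - a3), sq_nonneg ((a1 : ℤ) - a3)]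
  refine (Finset.sum_le_sum h4).trans ?_
  rw [← Finset.mul_sum, Finset.sum_add_distrib, Finset.sum_add_distrib]
  nlinarith [Nat.zero_le (∑ z, ω z ^ 2)]

end Pool.Agent.Y428.Ab
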