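import Pool.Agent.Y428.Ab.Der

/-!
# Commutators of theta graphs
-/

set_option autoImplicit false
set_option linter.unusedSectionVars false

open Classical SimpleGraph

namespace Pool.Agent.Y428.Ab

variable {V Γ : Type}

/-- the vertices of a shifted lift of a path, without one end -/
def SS [Group Γ] {Y : SimpleGraph V} {u v : V} (P : Y.Walk u v) (pot : V → Γ) (g : Γ) (e : V) :
    Set (Γ × V) := {z | z.2 ∈ P.support ∧ z.1 = g * pot z.2 ∧ z.2 ≠ e}

section
variable [Group Γ] (Y : SimpleGraph V) (f : V → V → Γ) (hf : ∀ u v, f v u = (f u v)⁻¹)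

lemma seg {u v : V} (P : Y.Walk u v) (hP : P.IsPath) : ∃ pot : V → Γ, pot u = 1 ∧
    pot v = volt f P ∧
    (∀ g h : Γ, g * volt f P = h → ∃ q : (der Y f hf).Walk (g, u) (h, v),
      q.length = P.length ∧ q.support.tail.Nodup ∧ ∀ z ∈ q.support.tail, z ∈ SS P pot g u) ∧
    (∀ g h : Γ, g * volt f P = h → ∃ q : (der Y f hf).Walk (h, v) (g, u),
      q.length = P.length ∧ q.support.tail.Nodup ∧ ∀ z ∈ q.support.tail, z ∈ SS P pot g v) := by
  obtain ⟨pot, h1, h2, h3⟩ := lift_path Y f hf P hP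
  refine ⟨pot, h1, h2, ?_, ?_⟩
  · rintro g h rfl
    obtain ⟨q, h4, h5, h6⟩ := h3 g
    refine ⟨q, h4, tail_nodup h5, fun z hz => ?_⟩
    obtain ⟨h7, h8⟩ := tail_ne h5 hz
    refine ⟨(h6 z h7).1, (h6 z h7).2, fun h9 => h8 ?_⟩
    have h10 := (h6 z h7).2
    rw [h9, h1, mul_one] at h10
    exact Prod.ext h10 h9
  · rintro g h rfl
    obtain ⟨q, h4, h5, h6⟩ := h3 g
    have h5' : q.reverse.IsPath := (SimpleGraph.Walk.isPath_reverse_iff q).mpr h5
    refine ⟨q.reverse, by rw [SimpleGraph.Walk.length_reverse, h4], tail_nodup h5',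
      fun z hz => ?_⟩
    obtain ⟨h7, h8⟩ := tail_ne h5' hz
    rw [SimpleGraph.Walk.support_reverse, List.mem_reverse] at h7
    refine ⟨(h6 z h7).1, (h6 z h7).2, fun h9 => h8 ?_⟩
    have h10 := (h6 z h7).2
    rw [h9, h2] at h10
    exact Prod.ext h10 h9

variable {Y}

lemma SS_same {u v : V} {P : Y.Walk u v} {pot : V → Γ} {g g' : Γ} {e e' : V} (h : g ≠ g')
    {z : Γ × V} (h1 : z ∈ SS P pot g e) (h2 : z ∈ SS P pot g' e') : False := by
  have := h1.2.1.symm.trans h2.2.1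
  exact h (mul_right_cancel this)

lemma SS_ff {u v : V} {P P' : Y.Walk u v} {pot pot' : V → Γ} {g g' : Γ}
    (hd : ∀ x, x ∈ P.support → x ∈ P'.support → x = u ∨ x = v)
    (h : g * pot v ≠ g' * pot' v)
    {z : Γ × V} (h1 : z ∈ SS P pot g u) (h2 : z ∈ SS P' pot' g' u) : False := by
  rcases hd z.2 h1.1 h2.1 with h3 | h3
  · exact h1.2.2 h3
  · have := h1.2.1.symm.trans h2.2.1
    rw [h3] at this
    exact h this

lemma SS_bb {u v : V} {P P' : Y.Walk u v} {pot pot' : V → Γ} {g g' : Γ}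
    (hd : ∀ x, x ∈ P.support → x ∈ P'.support → x = u ∨ x = v)
    (h : g * pot u ≠ g' * pot' u)
    {z : Γ × V} (h1 : z ∈ SS P pot g v) (h2 : z ∈ SS P' pot' g' v) : False := by
  rcases hd z.2 h1.1 h2.1 with h3 | h3
  · have := h1.2.1.symm.trans h2.2.1
    rw [h3] at this
    exact h this
  · exact h1.2.2 h3

lemma SS_fb {u v : V} {P P' : Y.Walk u v} {pot pot' : V → Γ} {g g' : Γ}
    (hd : ∀ x, x ∈ P.support → x ∈ P'.support → x = u ∨ x = v)
    {z : Γ × V} (h1 : z ∈ SS P pot g u) (h2 : z ∈ SS P' pot' g' v) : False := by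
  rcases hd z.2 h1.1 h2.1 with h3 | h3
  · exact h1.2.2 h3
  · exact h2.2.2 h3

end

/-- commutators of theta graphs -/
theorem theta_cycle [CommGroup Γ] (Y : SimpleGraph V) (f : V → V → Γ)
    (hf : ∀ u v, f v u = (f u v)⁻¹) {u v : V} (P1 P2 P3 : Y.Walk u v)
    (h1 : P1.IsPath) (h2 : P2.IsPath) (h3 : P3.IsPath)
    (h12 : ∀ x, x ∈ P1.support → x ∈ P2.support → x = u ∨ x = v)
    (h13 : ∀ x, x ∈ P1.support → x ∈ P3.support → x = u ∨ x = v)
    (h23 : ∀ x, x ∈ P2.support → x ∈ P3.support → x = u ∨ x = v)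
    (e12 : volt f P1 ≠ volt f P2) (e13 : volt f P1 ≠ volt f P3) (e23 : volt f P2 ≠ volt f P3)
    (n : ℕ) (hn : 3 ≤ n) (hl : 2 * (P1.length + P2.length + P3.length) = n) :
    cycleGraph n ⊑ der Y f hf := by
  obtain ⟨p1, a1, b1, f1, r1⟩ := seg Y f hf P1 h1
  obtain ⟨p2, a2, b2, f2, r2⟩ := seg Y f hf P2 h2
  obtain ⟨p3, a3, b3, f3, r3⟩ := seg Y f hf P3 h3
  set x1 := volt f P1 with hx1
  set x2 := volt f P2 with hx2
  set x3 := volt f P3 with hx3
  have A1 : x1 * x2⁻¹ ≠ 1 := fun h => e12 (mul_inv_eq_one.mp h)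
  have A2 : x2⁻¹ * x3 ≠ 1 := fun h => e23 (inv_mul_eq_one.mp h)
  have A3 : x1 * x2⁻¹ ≠ x2⁻¹ * x3 := fun h => by
    rw [mul_comm] at h
    exact e13 (mul_left_cancel h)
  have B2 : x1 * x2⁻¹ * x3 ≠ x1 := fun h => by
    rw [mul_assoc] at h
    exact A2 (mul_eq_left.mp h)
  have B3 : x1 * x2⁻¹ * x3 ≠ x3 := fun h => A1 (mul_eq_right.mp h)
  have B4 : x2⁻¹ * x3 * x2 = x3 := by
    rw [mul_comm x2⁻¹ x3, inv_mul_cancel_right]
  let c : ℕ → Γ × V := fun i => if i = 0 then (1, u) else if i = 1 then (x1, v) else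
    if i = 2 then (x1 * x2⁻¹, u) else if i = 3 then (x1 * x2⁻¹ * x3, v) else
    if i = 4 then (x2⁻¹ * x3, u) else if i = 5 then (x3, v) else (1, u)
  let len : ℕ → ℕ := fun i => if i = 0 then P1.length else if i = 1 then P2.length else
    if i = 2 then P3.length else if i = 3 then P1.length else
    if i = 4 then P2.length else P3.length
  let S : ℕ → Set (Γ × V) := fun i => if i = 0 then SS P1 p1 1 u else
    if i = 1 then SS P2 p2 (x1 * x2⁻¹) v else
    if i = 2 then SS P3 p3 (x1 * x2⁻¹) u else if i = 3 then SS P1 p1 (x2⁻¹ * x3) v else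
    if i = 4 then SS P2 p2 (x2⁻¹ * x3) u else SS P3 p3 1 v
  have hsum : ∑ i ∈ Finset.range 6, len i = n := by
    simp only [Finset.sum_range_succ, Finset.sum_range_zero, len]
    simp only [if_true, show (1 : ℕ) ≠ 0 by omega, show (2 : ℕ) ≠ 0 by omega,
      show (2 : ℕ) ≠ 1 by omega, show (3 : ℕ) ≠ 0 by omega, show (3 : ℕ) ≠ 1 by omega,
      show (3 : ℕ) ≠ 2 by omega, show (4 : ℕ) ≠ 0 by omega, show (4 : ℕ) ≠ 1 by omega,
      show (4 : ℕ) ≠ 2 by omega, show (4 : ℕ) ≠ 3 by omega, show (5 : ℕ) ≠ 0 by omega,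
      show (5 : ℕ) ≠ 1 by omega, show (5 : ℕ) ≠ 2 by omega, show (5 : ℕ) ≠ 3 by omega,
      show (5 : ℕ) ≠ 4 by omega, if_false]
    omega
  rw [← hsum] at hn ⊢
  refine cyc_of_segs (der Y f hf) 6 c rfl len S ?_ ?_ hn
  · intro i hi
    interval_cases i
    · exact f1 1 x1 (one_mul _)
    · exact r2 (x1 * x2⁻¹) x1 (inv_mul_cancel_right _ _)
    · exact f3 (x1 * x2⁻¹) (x1 * x2⁻¹ * x3) rfl
    · refine r1 (x2⁻¹ * x3) (x1 * x2⁻¹ * x3) ?_
      rw [mul_comm (x2⁻¹ * x3) x1, mul_assoc]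
    · exact f2 (x2⁻¹ * x3) x3 B4
    · exact r3 1 x3 (one_mul _)
  · have h21 : ∀ x, x ∈ P2.support → x ∈ P1.support → x = u ∨ x = v := fun x h h' => h12 x h' h
    have h31 : ∀ x, x ∈ P3.support → x ∈ P1.support → x = u ∨ x = v := fun x h h' => h13 x h' h
    have h32 : ∀ x, x ∈ P3.support → x ∈ P2.support → x = u ∨ x = v := fun x h h' => h23 x h' h
    have main : ∀ i j, i < j → j < 6 → ∀ z, z ∈ S i → z ∈ S j → False := by
      intro i j hij hj z hz1 hz2
      interval_cases j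
      · omega
      · interval_cases i
        exact SS_fb h12 hz1 hz2
      · interval_cases i
        · refine SS_ff h13 ?_ hz1 hz2
          rw [b1, b3, one_mul]
          exact B2.symm
        · exact SS_fb h32 hz2 hz1
      · interval_cases i
        · exact SS_same A2.symm hz1 hz2
        · refine SS_bb h21 ?_ hz1 hz2
          rw [a1, a2, mul_one, mul_one]
          exact A3
        · exact SS_fb h31 hz1 hz2
      · interval_cases i
        · refine SS_ff h12 ?_ hz1 hz2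
          rw [b1, b2, one_mul, B4]
          exact e13
        · exact SS_same A3 hz1 hz2
        · refine SS_ff h32 ?_ hz1 hz2
          rw [b3, b2, B4]
          exact B3
        · exact SS_fb h21 hz2 hz1
      · interval_cases i
        · exact SS_fb h13 hz1 hz2
        · refine SS_bb h23 ?_ hz1 hz2
          rw [a2, a3, mul_one, mul_one]
          exact A1
        · exact SS_same A1 hz1 hz2
        · refine SS_bb h13 ?_ hz1 hz2
          rw [a1, a3, mul_one, mul_one]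
          exact A2
        · exact SS_fb h23 hz1 hz2
    intro i hi j hj hij z hz1 hz2
    rcases Nat.lt_or_gt_of_ne hij with h | h
    · exact main i j h hj z hz1 hz2
    · exact main j i h hi z hz2 hz1

end Pool.Agent.Y428.Ab
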