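import Pool.Agent.Y428.Ab.Loc
import Pool.Agent.H694R4.Law.Fin2

/-!
# The bounds for abelian groups, nilpotent groups and groups with a law
-/

set_option autoImplicit false
set_option linter.unusedSectionVars false

open Classical SimpleGraph

namespace Pool.Agent.Y428.Ab

open Pool.Agent.H694R4.Law (haar)

/-- abelian groups -/
theorem top_ab (ℓ j : ℕ) (hℓ : 2 ≤ ℓ) (hj : j ≤ 2) : ∃ C : ℕ,
    ∀ (Γ V : Type) [CommGroup Γ] [Finite V] [MulAction Γ V] (X : SimpleGraph V)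
    (_ : ∀ (g : Γ) (a c : V), X.Adj a c → X.Adj (g • a) (g • c))
    (_ : ∀ (g : Γ) (a : V), g • a = a → g = 1) (_ : (cycleGraph (2 * (3 * ℓ + 2 * j))).Free X),
    X.edgeSet.ncard ^ ℓ ≤
      C * (Nat.card V ^ ℓ * Nat.card (MulAction.orbitRel.Quotient Γ V)) := by
  have hex : ∀ K : ℕ, ∃ B : ℕ, 0 < B ∧ (1 ≤ K → ∀ (Γ : Type) [CommGroup Γ],
      CoreP Γ K B ℓ (2 * (3 * ℓ + 2 * j))) := by
    intro K
    rcases Nat.lt_or_ge K 1 with h | h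
    · exact ⟨1, one_pos, fun h' => absurd h' (by omega)⟩
    · obtain ⟨B, hB, h'⟩ := core_ab K ℓ j h (by omega) hj
      refine ⟨B, hB, fun _ Γ _ => ?_⟩
      intro V _ _ _ Y c hc D hD h1 h2 h3 f hf
      exact h' V Γ Y c hc D hD h1 h2 h3 f hf
  choose Bf hBf hcore using hex
  obtain ⟨C, hC⟩ := assemble ℓ (2 * (3 * ℓ + 2 * j)) (2 * ((3 * ℓ + 2 * j) + 1) ^ 2) hℓ Bf hBf
  refine ⟨C, fun Γ V _ _ _ X haut hfree hX => ?_⟩
  refine hC Γ V X haut hfree (fun K hK => hcore K hK Γ) ?_ hX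
  intro u v h
  exact loc_nil X haut hfree 1 (3 * ℓ + 2 * j) CommGroup.nilpotencyClass_le_one le_rfl
    (by omega) u v h

/-- nilpotent groups -/
theorem top_nil (c ℓ m : ℕ) (hc : 1 ≤ c) (hℓ : 2 ≤ ℓ) (hm : 3 * 2 ^ c ≤ m + 3) : ∃ C : ℕ,
    ∀ (Γ V : Type) [Group Γ] [Group.IsNilpotent Γ] [Finite V] [MulAction Γ V]
    (X : SimpleGraph V) (_ : Group.nilpotencyClass Γ ≤ c)
    (_ : ∀ (g : Γ) (a c : V), X.Adj a c → X.Adj (g • a) (g • c))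
    (_ : ∀ (g : Γ) (a : V), g • a = a → g = 1) (_ : (cycleGraph (2 * (m * ℓ))).Free X),
    X.edgeSet.ncard ^ ℓ ≤
      C * (Nat.card V ^ ℓ * Nat.card (MulAction.orbitRel.Quotient Γ V)) := by
  have h2c : 2 ≤ 2 ^ c := by
    calc 2 = 2 ^ 1 := rfl
      _ ≤ 2 ^ c := Nat.pow_le_pow_right (by norm_num) hc
  have hex : ∀ K : ℕ, ∃ B : ℕ, 0 < B ∧ (1 ≤ K → ∀ (Γ : Type) [Group Γ] [Group.IsNilpotent Γ],
      Group.nilpotencyClass Γ ≤ c → CoreP Γ K B ℓ (2 * (m * ℓ))) := by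
    intro K
    rcases Nat.lt_or_ge K 1 with h | h
    · exact ⟨1, one_pos, fun h' => absurd h' (by omega)⟩
    · obtain ⟨B, hB, h'⟩ := core_haar K ℓ m (2 * (m + 1) ^ 2) h (by omega) (by omega)
      refine ⟨B, hB, fun _ Γ _ _ hcl => ?_⟩
      intro V _ _ _ Y c' hc' D hD h1 h2 h3 f hf
      exact h' V Γ Y c' hc' D hD h1 h2 h3 f hf
        (fun T hT => haar_nil c m hcl hc hm T hT)
  choose Bf hBf hcore using hex
  obtain ⟨C, hC⟩ := assemble ℓ (2 * (m * ℓ)) (2 * ((m * ℓ) + 1) ^ 2) hℓ Bf hBf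
  refine ⟨C, fun Γ V _ _ _ _ X hcl haut hfree hX => ?_⟩
  refine hC Γ V X haut hfree (fun K hK => hcore K hK Γ hcl) ?_ hX
  intro u v h
  have hml : m ≤ m * ℓ := Nat.le_mul_of_pos_right m (by omega)
  exact loc_nil X haut hfree c (m * ℓ) hcl hc (by omega) u v h

/-- the local bound for groups with a law -/
theorem loc_law {r : ℕ} (w : FreeGroup (Fin r)) (hw : w ≠ 1) (k : ℕ) (hk : 2 ≤ k)
    (h : 3 * w.toWord.length ^ 2 ≤ k) : ∃ D : ℕ,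
    ∀ (Γ V : Type) [Group Γ] [MulAction Γ V] (X : SimpleGraph V)
    (_ : ∀ φ : FreeGroup (Fin r) →* Γ, φ w = 1)
    (_ : ∀ (g : Γ) (a c : V), X.Adj a c → X.Adj (g • a) (g • c))
    (_ : ∀ (g : Γ) (a : V), g • a = a → g = 1) (u v : V)
    (_ : (D : ℕ∞) ≤ (X.neighborSet u ∩ MulAction.orbit Γ v).encard),
    cycleGraph (2 * k) ⊑ X := by
  obtain ⟨D, hD⟩ := Pool.Agent.H694R4.Law.law_cycles_all w hw k h
  obtain ⟨D', hD'⟩ := Pool.Agent.H694R4.Law.law_core w hw k hk (Or.inl h)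
  refine ⟨max D D', fun Γ V _ _ X hlaw haut hfree u v hN => ?_⟩
  by_cases huv : v ∈ MulAction.orbit Γ u
  · rw [MulAction.orbit_eq_iff.mpr huv] at hN
    exact Pool.Agent.H694R4.Law.loc_same X haut hfree u D' _ (by omega) (hD' Γ hlaw)
      (le_trans (by exact_mod_cast le_max_right D D') hN)
  · exact Pool.Agent.H694R4.Law.loc_cycle X haut hfree u v huv D _ (hD Γ hlaw)
      (le_trans (by exact_mod_cast le_max_left D D') hN)

/-- groups with a law -/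
theorem top_law {r : ℕ} (w : FreeGroup (Fin r)) (hw : w ≠ 1) (ℓ m : ℕ) (hℓ : 2 ≤ ℓ)
    (hm : 3 * w.toWord.length ^ 2 ≤ m) : ∃ C : ℕ,
    ∀ (Γ V : Type) [Group Γ] [Finite V] [MulAction Γ V]
    (X : SimpleGraph V) (_ : ∀ φ : FreeGroup (Fin r) →* Γ, φ w = 1)
    (_ : ∀ (g : Γ) (a c : V), X.Adj a c → X.Adj (g • a) (g • c))
    (_ : ∀ (g : Γ) (a : V), g • a = a → g = 1) (_ : (cycleGraph (2 * (m * ℓ))).Free X),
    X.edgeSet.ncard ^ ℓ ≤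
      C * (Nat.card V ^ ℓ * Nat.card (MulAction.orbitRel.Quotient Γ V)) := by
  have hlam : 1 ≤ w.toWord.length := by
    rw [Nat.one_le_iff_ne_zero]
    intro h
    exact hw (FreeGroup.toWord_eq_nil_iff.mp (List.length_eq_zero_iff.mp h))
  have hm3 : 3 ≤ m := by nlinarith
  obtain ⟨N, hN⟩ := Pool.Agent.H694R4.Law.law_cycles_all w hw m hm
  have hex : ∀ K : ℕ, ∃ B : ℕ, 0 < B ∧ (1 ≤ K → ∀ (Γ : Type) [Group Γ],
      (∀ φ : FreeGroup (Fin r) →* Γ, φ w = 1) → CoreP Γ K B ℓ (2 * (m * ℓ))) := by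
    intro K
    rcases Nat.lt_or_ge K 1 with h | h
    · exact ⟨1, one_pos, fun h' => absurd h' (by omega)⟩
    · obtain ⟨B, hB, h'⟩ := core_haar K ℓ m N h (by omega) (by omega)
      refine ⟨B, hB, fun _ Γ _ hlaw => ?_⟩
      intro V _ _ _ Y c' hc' D hD h1 h2 h3 f hf
      exact h' V Γ Y c' hc' D hD h1 h2 h3 f hf (fun T hT => hN Γ hlaw T hT)
  choose Bf hBf hcore using hex
  have hml : m ≤ m * ℓ := Nat.le_mul_of_pos_right m (by omega)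
  obtain ⟨D, hD⟩ := loc_law w hw (m * ℓ) (by omega) (hm.trans hml)
  obtain ⟨C, hC⟩ := assemble ℓ (2 * (m * ℓ)) D hℓ Bf hBf
  refine ⟨C, fun Γ V _ _ _ X hlaw haut hfree hX => ?_⟩
  exact hC Γ V X haut hfree (fun K hK => hcore K hK Γ hlaw)
    (hD Γ V X hlaw haut hfree) hX

/-- the number of orbits -/
lemma orbits_real (ℓ k C e n t : ℕ) (hℓ : 1 ≤ ℓ) (hk : 1 ≤ k) (h : e ^ ℓ ≤ C * (n ^ ℓ * t))
    (ε : ℝ) (hε : 0 < ε) (he : ε * (n : ℝ) ^ (1 + 1 / (k : ℝ)) ≤ e) :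
    ε ^ ℓ * (n : ℝ) ^ ((ℓ : ℝ) / (k : ℝ)) ≤ C * t := by
  have hk0 : (0 : ℝ) < k := by exact_mod_cast hk
  have hℓ0 : (0 : ℝ) < ℓ := by exact_mod_cast hℓ
  rcases Nat.eq_zero_or_pos n with hn | hn
  · rw [hn, Nat.cast_zero, Real.zero_rpow (by positivity), mul_zero]
    positivity
  · have hn0 : (0 : ℝ) < n := by exact_mod_cast hn
    have h1 : (ε * (n : ℝ) ^ (1 + 1 / (k : ℝ))) ^ ℓ ≤ (e : ℝ) ^ ℓ :=
      pow_le_pow_left₀ (by positivity) he ℓ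
    have h2 : (e : ℝ) ^ ℓ ≤ C * ((n : ℝ) ^ ℓ * t) := by exact_mod_cast h
    have h3 : (ε * (n : ℝ) ^ (1 + 1 / (k : ℝ))) ^ ℓ =
        (n : ℝ) ^ ℓ * (ε ^ ℓ * (n : ℝ) ^ ((ℓ : ℝ) / (k : ℝ))) := by
      rw [Real.rpow_add hn0, Real.rpow_one, mul_pow, mul_pow, ← Real.rpow_natCast
        ((n : ℝ) ^ (1 / (k : ℝ))) ℓ, ← Real.rpow_mul hn0.le]
      have : 1 / (k : ℝ) * ℓ = (ℓ : ℝ) / k := by ring
      rw [this]
      ring
    rw [h3] at h1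
    have h4 : (n : ℝ) ^ ℓ * (ε ^ ℓ * (n : ℝ) ^ ((ℓ : ℝ) / (k : ℝ))) ≤ (n : ℝ) ^ ℓ * (C * t) := by
      refine h1.trans (h2.trans (le_of_eq ?_))
      ring
    exact le_of_mul_le_mul_left h4 (by positivity)

end Pool.Agent.Y428.Ab
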