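import Mathlib

/-!
# Numbers of walks and closed walks
-/

set_option autoImplicit false

open Classical

namespace Pool.Agent.Y428.Ab

variable {V : Type} [Fintype V]

/-- the walks of length n from u to v -/
noncomputable def F (G : SimpleGraph V) (n : ℕ) (u v : V) : Finset (G.Walk u v) :=
  G.finsetWalkLength n u v

lemma mem_F {G : SimpleGraph V} {n : ℕ} {u v : V} {p : G.Walk u v} :
    p ∈ F G n u v ↔ p.length = n := SimpleGraph.mem_finsetWalkLength_iff

/-- the number of walks -/
noncomputable def W (G : SimpleGraph V) (n : ℕ) (u v : V) : ℕ := (F G n u v).card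

lemma W_eq (G : SimpleGraph V) (n : ℕ) (u v : V) : W G n u v = ((G.adjMatrix ℕ) ^ n) u v := by
  rw [SimpleGraph.adjMatrix_pow_apply_eq_card_walk]
  unfold W F
  rw [← SimpleGraph.card_set_walk_length_eq]
  norm_cast

lemma W_zero (G : SimpleGraph V) (u v : V) : W G 0 u v = if u = v then 1 else 0 := by
  rw [W_eq, pow_zero, Matrix.one_apply]

lemma W_add (G : SimpleGraph V) (m n : ℕ) (u v : V) :
    W G (m + n) u v = ∑ w, W G m u w * W G n w v := by
  rw [W_eq, pow_add, Matrix.mul_apply]
  simp only [W_eq]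

lemma W_symm (G : SimpleGraph V) (n : ℕ) (u v : V) : W G n u v = W G n v u := by
  rw [W_eq, W_eq]
  have h : ((G.adjMatrix ℕ) ^ n).transpose = (G.adjMatrix ℕ) ^ n := by
    rw [Matrix.transpose_pow, SimpleGraph.transpose_adjMatrix]
  conv_lhs => rw [← h]
  rfl

lemma W_one (G : SimpleGraph V) (u v : V) : W G 1 u v = if G.Adj u v then 1 else 0 := by
  rw [W_eq, pow_one, SimpleGraph.adjMatrix_apply]

lemma W_succ (G : SimpleGraph V) (n : ℕ) (u v : V) :
    W G (n + 1) u v = ∑ w ∈ Finset.univ.filter (fun w => G.Adj u w), W G n w v := by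
  rw [Nat.add_comm, W_add, Finset.sum_filter]
  refine Finset.sum_congr rfl fun w _ => ?_
  rw [W_one]
  split_ifs <;> simp

lemma W_two (G : SimpleGraph V) (u : V) :
    W G 2 u u = (Finset.univ.filter (fun w => G.Adj u w)).card := by
  rw [show (2 : ℕ) = 1 + 1 from rfl, W_succ, Finset.card_eq_sum_ones]
  refine Finset.sum_congr rfl fun w hw => ?_
  rw [Finset.mem_filter] at hw
  rw [W_one, if_pos hw.2.symm]

/-- the number of closed walks of length 2i from x -/
noncomputable def b (G : SimpleGraph V) (i : ℕ) (x : V) : ℕ := W G (2 * i) x x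

/-- the number of closed walks of length 2i -/
noncomputable def a (G : SimpleGraph V) (i : ℕ) : ℕ := ∑ x, b G i x

lemma b_mul (G : SimpleGraph V) (i j m : ℕ) (h : i + j = 2 * m) (x : V) :
    b G m x = ∑ y, W G i x y * W G j x y := by
  unfold b
  rw [← h, W_add]
  refine Finset.sum_congr rfl fun y _ => ?_
  rw [W_symm G j y x]

lemma b_zero (G : SimpleGraph V) (x : V) : b G 0 x = 1 := by
  unfold b
  rw [Nat.mul_zero, W_zero, if_pos rfl]

lemma a_zero (G : SimpleGraph V) : a G 0 = Fintype.card V := by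
  unfold a
  simp only [b_zero]
  simp

lemma a_sq (G : SimpleGraph V) (i : ℕ) : a G i = ∑ u, ∑ v, W G i u v ^ 2 := by
  unfold a
  refine Finset.sum_congr rfl fun x _ => ?_
  rw [b_mul G i i i (by ring)]
  refine Finset.sum_congr rfl fun y _ => ?_
  ring

lemma b_logconvex (G : SimpleGraph V) (i : ℕ) (x : V) :
    b G (i + 1) x ^ 2 ≤ b G i x * b G (i + 2) x := by
  have h1 : b G (i + 1) x = ∑ y, W G i x y * W G (i + 2) x y := b_mul G _ _ _ (by ring) x
  have h2 : b G i x = ∑ y, W G i x y ^ 2 := by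
    rw [b_mul G i i i (by ring)]
    exact Finset.sum_congr rfl fun y _ => by ring
  have h3 : b G (i + 2) x = ∑ y, W G (i + 2) x y ^ 2 := by
    rw [b_mul G (i + 2) (i + 2) (i + 2) (by ring)]
    exact Finset.sum_congr rfl fun y _ => by ring
  rw [h1, h2, h3]
  exact Finset.sum_mul_sq_le_sq_mul_sq _ _ _

lemma a_logconvex (G : SimpleGraph V) (i : ℕ) : a G (i + 1) ^ 2 ≤ a G i * a G (i + 2) := by
  have h1 : a G (i + 1) = ∑ p : V × V, W G i p.1 p.2 * W G (i + 2) p.1 p.2 := by
    unfold a
    rw [Fintype.sum_prod_type]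
    exact Finset.sum_congr rfl fun x _ => b_mul G _ _ _ (by ring) x
  have h2 : ∀ j, a G j = ∑ p : V × V, W G j p.1 p.2 ^ 2 := by
    intro j
    rw [a_sq, Fintype.sum_prod_type]
  rw [h1, h2 i, h2 (i + 2)]
  exact Finset.sum_mul_sq_le_sq_mul_sq _ _ _

end Pool.Agent.Y428.Ab
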